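import Pool.Agent.Helper67.LB.Defs

set_option autoImplicit false

/-!
# Machines for exact levels of the polynomial hierarchy
-/

namespace Pool.Agent.Helper67.EL

open Pool.Agent.Helper67.EQP Pool.Agent.Helper67.LB

/-- A `Σ_k` oracle machine: on an input `x` of length `n` it guesses `k` alternately quantified
strings of length `time n`, the first one existentially, and then asks at most `time n` adaptive
queries, each of length at most `time n`. (No uniformity is required.) -/
structure XMachine (k : ℕ) where
  time : ℕ → ℕ
  tree : (x : List Bool) → (Fin k → Fin (time x.length) → Bool) → DTree (List Bool)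
  depth_le : ∀ x y, (tree x y).depth ≤ time x.length
  short : ∀ x y, (tree x y).All (fun s => s.length ≤ time x.length)

/-- The machine accepts `x` relative to the oracle `B`. -/
def XMachine.Accepts {k : ℕ} (N : XMachine k) (B : List Bool → Bool) (x : List Bool) : Prop :=
  Alt k true (fun y => (N.tree x y).eval B = true)

/-- The code of the computation of the `i`-th machine `N` on `x`. -/
def XMachine.code {k : ℕ} (N : XMachine k) (i : ℕ) (x : List Bool) : List Bool :=
  pcode i (2 * N.time x.length) x

/-- A `Σ_k` oracle machine with time bound `t`, run on the inputs `1^n`: for some constant `c` it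
guesses `k` alternately quantified strings of length `(t n)^c + c`, the first one existentially,
and then asks at most `(t n)^c + c` adaptive queries, each of length at most `(t n)^c + c`. (No
uniformity is required.) -/
structure TMachine (t : ℕ → ℕ) (k : ℕ) where
  c : ℕ
  tree : (n : ℕ) → (Fin k → Fin (t n ^ c + c) → Bool) → DTree (List Bool)
  depth_le : ∀ n y, (tree n y).depth ≤ t n ^ c + c
  short : ∀ n y, (tree n y).All (fun s => s.length ≤ t n ^ c + c)

/-- The machine accepts `1^n` relative to the oracle `B`. -/
def TMachine.Accepts {t : ℕ → ℕ} {k : ℕ} (M : TMachine t k) (B : List Bool → Bool) (n : ℕ) :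
    Prop :=
  Alt k true (fun y => (M.tree n y).eval B = true)

end Pool.Agent.Helper67.EL
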