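import Pool.Agent.Helper67.EL.OMain

set_option autoImplicit false

/-!
Assembly of the final theorem from `exists_worldO`.
-/

namespace Pool.Agent.Helper67.EL

open Pool.Agent.Helper67.EQP Pool.Agent.Helper67.LB

open Classical in
theorem final_aux (k : ℕ) (fin : Prop) (N : ℕ → XMachine (k + 1)) (F : ℕ → OFun) {t : ℕ → ℕ}
    (ht : VerySlow t) (M : (m : ℕ) → ℕ → TMachine t m) :
    ∃ B : List Bool → Bool,
      (fin → ∀ i x, Alt k true (fun y : Fin k → Fin (wid ((N i).code i x)) → Bool =>
        B (mstr ((N i).code i x) y) = true) ↔ (N i).Accepts B x) ∧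
      (∀ j, (fin → j < k) → ∀ i, {n | (M j i).Accepts B n} ≠ {n | Alt (j + 1) true
        (fun y : Fin (j + 1) → Fin (4 * (2 * n)) → Bool => B (fstr n y) = true)}) ∧
      (∀ i x, (kcirc ((F i).code i x)).acceptProb B = if (F i).F B x = true then 1 else 0) ∧
      (∀ n, (kcirc (List.replicate n true)).acceptProb B = 0 ∨
        (kcirc (List.replicate n true)).acceptProb B = 1) ∧
      {n | (kcirc (List.replicate n true)).acceptProb B = 1}.Infinite ∧
      ∀ m i, {n | (M m i).Accepts B n} ⊆
          {n | (kcirc (List.replicate n true)).acceptProb B = 1} →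
        {n | (M m i).Accepts B n}.Finite := by
  obtain ⟨δ, τ, β, C, h1, h2, h3⟩ := exists_worldO k fin N F ht M
  set X := XO k fin N F δ τ β C with hX
  have hacc : ∀ κ, (kcirc κ).acceptProb (BO k fin N X τ C) =
      if BitO k fin N F τ β C X κ then 1 else 0 := by
    intro κ
    rw [kcirc_acceptProb κ (BO k fin N X τ C) (X κ) (BO_bstr k fin N X τ C κ)]
    have hspec := XO_spec k fin N F δ τ β C κ
    rw [← hX] at hspec
    rw [hspec]
    split_ifs
    · exact (three_query (par κ)).1 _ (δ κ).1.2
    · exact (three_query (par κ)).2 _ (δ κ).2.2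
  have hfree : ∀ n, (kcirc (List.replicate n true)).acceptProb (BO k fin N X τ C) =
      if β n = true then 1 else 0 := by
    intro n
    rw [hacc]
    simp only [BitO_free]
  have hiff : {n | (kcirc (List.replicate n true)).acceptProb (BO k fin N X τ C) = 1} =
      {n | β n = true} := by
    ext n
    rw [Set.mem_setOf_eq, Set.mem_setOf_eq, hfree]
    split_ifs with h
    · simp [h]
    · simp [h]
  refine ⟨BO k fin N X τ C, ?_, ?_, ?_, ?_, ?_, ?_⟩
  · intro hfin i x
    exact BO_tt k fin N hfin X τ C i x
  · intro j hj i heq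
    obtain ⟨n, hn⟩ := h3 j i hj
    apply hn
    have := Set.ext_iff.mp heq n
    simpa only [Set.mem_setOf_eq] using this
  · intro i x
    rw [hacc]
    simp only [BitO_code]
  · intro n
    rw [hfree]
    split_ifs
    · exact Or.inr rfl
    · exact Or.inl rfl
  · rw [hiff]
    exact h1
  · intro m i
    rw [hiff]
    exact h2 m i

end Pool.Agent.Helper67.EL
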