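import Pool.Agent.Helper67.EL.Defs
import Pool.Agent.Helper67.LB.WCode

set_option autoImplicit false
set_option linter.unusedSectionVars false

/-!
Codes. (EL-02.) See `LB/WCode.lean` (`mstr_length`, `cat_length`, `mstr_inj`, `fstr_inj`, ...) and
`EQP/CWorld.lean` (`pcode_inj`, `pcode_length`, `rep_inj`, `bstr_inj`).

* `mstr_code_inj`: the lengths `κ.length + 2 + k * (4 * (8 * (κ.length + 1)))` are equal, so
  `κ.length = κ'.length`, and `List.append_inj`.
* `fstr_all_inj`: `rep_inj` twice; then `cat y = cat y'` for the same `j`, `n`.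
-/

namespace Pool.Agent.Helper67.EL

open Finset Function Classical
open Pool.Agent.Helper67.EQP Pool.Agent.Helper67.LB

theorem xcode_length {k : ℕ} (N : XMachine k) (i : ℕ) (x : List Bool) :
    (N.code i x).length = i + 2 * N.time x.length + x.length + 2 := by
  unfold XMachine.code
  rw [pcode_length]

theorem xcode_inj {k k' : ℕ} {N : XMachine k} {N' : XMachine k'} {i i' : ℕ} {x x' : List Bool}
    (h : N.code i x = N'.code i' x') : i = i' ∧ x = x' := by
  unfold XMachine.code at h
  exact pcode_inj h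

theorem mstr_code_inj {k : ℕ} {κ κ' : List Bool} {y : Fin k → Fin (wid κ) → Bool}
    {y' : Fin k → Fin (wid κ') → Bool} (h : mstr κ y = mstr κ' y') : κ = κ' := by
  have hl := congrArg List.length h
  rw [mstr_length, mstr_length] at hl
  unfold mstr at h
  have h2 : κ ++ cat y = κ' ++ cat y' := by
    simpa using h
  have h4 : κ.length = κ'.length := by
    simp only [wid] at hl
    rcases Nat.lt_trichotomy κ.length κ'.length with h5 | h5 | h5
    · have h6 : k * (4 * (8 * (κ.length + 1))) ≤ k * (4 * (8 * (κ'.length + 1))) :=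
        Nat.mul_le_mul_left _ (by omega)
      omega
    · exact h5
    · have h6 : k * (4 * (8 * (κ'.length + 1))) ≤ k * (4 * (8 * (κ.length + 1))) :=
        Nat.mul_le_mul_left _ (by omega)
      omega
  exact (List.append_inj h2 h4).1

theorem fstr_all_inj {j n j' n' : ℕ} {y : Fin (j + 1) → Fin (4 * (2 * n)) → Bool}
    {y' : Fin (j' + 1) → Fin (4 * (2 * n')) → Bool} (h : fstr n y = fstr n' y') :
    j = j' ∧ n = n' := by
  unfold fstr at h
  rw [List.cons.injEq, List.cons.injEq] at h
  obtain ⟨h1, h2⟩ := rep_inj h.2.2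
  obtain ⟨h3, _⟩ := rep_inj h2
  exact ⟨by omega, h3⟩

theorem mstr_ne_bstr {k : ℕ} {κ κ' : List Bool} (y : Fin k → Fin (wid κ) → Bool)
    (a : B0 (par κ') × Bool) : mstr κ y ≠ bstr κ' a := by
  intro h
  simp [mstr, bstr] at h

theorem mstr_ne_fstr {k k' m : ℕ} {κ : List Bool} (y : Fin k → Fin (wid κ) → Bool) (n : ℕ)
    (y' : Fin k' → Fin m → Bool) : mstr κ y ≠ fstr n y' := by
  intro h
  simp [mstr, fstr] at h

theorem mstr_length_gt {k : ℕ} {κ : List Bool} (y : Fin k → Fin (wid κ) → Bool) :
    κ.length < (mstr κ y).length := by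
  rw [mstr_length]
  omega

theorem fstr_length_gt {k m : ℕ} (n : ℕ) (y : Fin k → Fin m → Bool) :
    n < (fstr n y).length := by
  rw [fstr_length]
  omega

end Pool.Agent.Helper67.EL
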