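import Pool.Agent.Helper67.EL.Defs
import Pool.Agent.Helper67.LB.TDefs
import Pool.Agent.Helper67.EQP.CComp
import Pool.Agent.Helper67.LB.QSM

set_option autoImplicit false
set_option linter.unusedSectionVars false

/-!
Alternating machines over circuits and over shallow trees. (EL-01.)

* `Comp.altc`: alternating quantifiers over functions computed by circuits. Induction on `k`, for
  both values of `e`, as in `EQP.Comp.alt` (`EQP/Comp.lean`), with `Comp.gate`; sizes:
  `1 + card Y * ((1 + card Y) ^ k * s) ≤ (1 + card Y) ^ (k + 1) * s` as `1 ≤ s`.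
* `Comp.alts`: `Comp.altc` and `EQP.Comp.tree` (`EQP/CComp.lean`).
* `tmachine_comp`: as `smachine_comp` in `LB/QSM.lean` (`DTree.comp_dtd`, `EQP.Comp.alt`).
* congruence lemmas: as `EQP.NMachine.accepts_congr`, `LB.SMachine.accepts_congr`
  (`EQP.tree_congr` in `EQP/CWorld.lean`, induction on `k` for `Alt`, or a congruence lemma for
  `Alt` proved here).
-/

namespace Pool.Agent.Helper67.EL

open Finset Function Classical
open Pool.Agent.Helper67.EQP Pool.Agent.Helper67.LB

variable {ι : Type} [DecidableEq ι]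

theorem Comp.altc {Y : Type} [Fintype Y] {w h s : ℕ} (hs : 1 ≤ s) (k : ℕ) (e : Bool)
    (P : (Fin k → Y) → (ι → Bool) → Bool) (hP : ∀ ys, Comp w h s (P ys)) :
    Comp w (h + k) ((1 + Fintype.card Y) ^ k * s)
      (fun x => decide (Alt k e (fun ys => P ys x = true))) := by
  induction k generalizing e with
  | zero =>
    have h0 : (fun x => decide (Alt 0 e (fun ys => P ys x = true))) = P (fun i => i.elim0) := by
      funext x
      rw [Bool.eq_iff_iff, decide_eq_true_iff]
      exact Iff.rfl
    rw [h0, pow_zero, one_mul]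
    exact hP _
  | succ k ih =>
    have h1 : ∀ (e' : Bool) (y : Y), Comp w (h + k) ((1 + Fintype.card Y) ^ k * s)
        (fun x => decide (Alt k e' (fun ys => P (Fin.cons y ys) x = true))) := fun e' y =>
      ih e' (fun ys => P (Fin.cons y ys)) (fun ys => hP _)
    have hsz : 1 + Fintype.card Y * ((1 + Fintype.card Y) ^ k * s) ≤
        (1 + Fintype.card Y) ^ (k + 1) * s := by
      have h2 : 1 ≤ (1 + Fintype.card Y) ^ k := Nat.one_le_pow _ _ (by omega)
      have h3 : 1 ≤ (1 + Fintype.card Y) ^ k * s := Nat.mul_pos h2 hs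
      have h4 : (1 + Fintype.card Y) ^ (k + 1) * s =
          (1 + Fintype.card Y) ^ k * s + Fintype.card Y * ((1 + Fintype.card Y) ^ k * s) := by
        ring
      omega
    cases e with
    | true =>
      refine EQP.Comp.mono (EQP.Comp.gate (h1 false) (Or.inr ?_)) le_rfl hsz
      intro x
      rw [decide_eq_true_iff]
      simp only [decide_eq_true_iff]
      exact Iff.rfl
    | false =>
      refine EQP.Comp.mono (EQP.Comp.gate (h1 true) (Or.inl ?_)) le_rfl hsz
      intro x
      rw [decide_eq_true_iff]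
      simp only [decide_eq_true_iff]
      exact Iff.rfl

theorem Comp.alts {K Y : Type} [Fintype Y] {w h s d : ℕ} (k : ℕ) (P : K → Prop)
    (T : (Fin k → Y) → DTree K) (hd : ∀ y, (T y).depth ≤ d) (hT : ∀ y, (T y).All P)
    (A : (ι → Bool) → K → Bool) (hA : ∀ κ, P κ → Comp w h s (fun x => A x κ)) :
    Comp w (h + 2 + k) ((1 + Fintype.card Y) ^ k * (1 + 2 ^ d * (1 + d * s)))
      (fun x => decide (Alt k true (fun y => (T y).eval (A x) = true))) :=
  Comp.altc (by omega) k true (fun ys x => (T ys).eval (A x))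
    (fun ys => EQP.Comp.tree P (T ys) (hd ys) (hT ys) A hA)

theorem tmachine_comp {t : ℕ → ℕ} {k : ℕ} (M : TMachine t k) (n D : ℕ)
    (A : (ι → Bool) → List Bool → Bool)
    (hA : ∀ s : List Bool, s.length ≤ t n ^ M.c + M.c → DTd D (fun y => A y s)) :
    Comp ((t n ^ M.c + M.c) * D) k ((1 + 2 ^ (t n ^ M.c + M.c)) ^ k)
      (fun y => decide (M.Accepts (A y) n)) := by
  have h1 := EQP.Comp.alt (ι := ι) (Y := Fin (t n ^ M.c + M.c) → Bool)
    (w := (t n ^ M.c + M.c) * D) k true
    (fun ys x => (M.tree n ys).eval (A x))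
    (fun ys => DTree.comp_dtd (M.short n ys) (M.depth_le n ys) A hA)
  have h2 : Fintype.card (Fin (t n ^ M.c + M.c) → Bool) = 2 ^ (t n ^ M.c + M.c) := by simp
  rw [h2] at h1
  exact h1

private theorem eval_congr' {K : Type} {P : K → Prop} {A A' : K → Bool}
    (h : ∀ s, P s → A s = A' s) (T : DTree K) (hT : T.All P) : T.eval A = T.eval A' := by
  induction T with
  | leaf v => rfl
  | node s t0 t1 ih0 ih1 =>
    obtain ⟨hs, hT0, hT1⟩ := hT
    simp only [DTree.eval]
    rw [h s hs, ih0 hT0, ih1 hT1]

theorem TMachine.accepts_congr {t : ℕ → ℕ} {k : ℕ} (M : TMachine t k) (n : ℕ)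
    {A A' : List Bool → Bool} (h : ∀ s : List Bool, s.length ≤ t n ^ M.c + M.c → A s = A' s) :
    M.Accepts A n ↔ M.Accepts A' n := by
  unfold TMachine.Accepts
  have h1 : (fun y => (M.tree n y).eval A = true) = fun y => (M.tree n y).eval A' = true := by
    funext y
    rw [eval_congr' h (M.tree n y) (M.short n y)]
  rw [h1]

theorem XMachine.accepts_congr {k : ℕ} (N : XMachine k) (x : List Bool)
    {A A' : List Bool → Bool} (h : ∀ s : List Bool, s.length ≤ N.time x.length → A s = A' s) :
    N.Accepts A x ↔ N.Accepts A' x := by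
  unfold XMachine.Accepts
  have h1 : (fun y => (N.tree x y).eval A = true) = fun y => (N.tree x y).eval A' = true := by
    funext y
    rw [eval_congr' h (N.tree x y) (N.short x y)]
  rw [h1]

end Pool.Agent.Helper67.EL
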