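import Pool.Agent.Helper67.EQP.Immune

set_option autoImplicit false
set_option linter.unusedSectionVars false

/-!
The stage construction with additional requirements. (EL-09.)

Derive it from `EQP.immune` (`EQP/Immune.lean`) as a black box. Use the family
`Acc' (2 i) = Acc i` and `Acc' (2 r + 1) A n := L n (A n) ∧ ¬ ∃ m ≤ n, Rq r A m`. The conclusion for
`Acc' (2 r + 1)`: its set is contained in `{n | L n (A n)}`, so it is finite; as the latter set is
infinite, `Rq r A m` holds for some `m`.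
* locality of `Acc' (2 r + 1)`: `b = n + 1` (`hRloc`: `Rq r A m` depends only on `A` below `m ≤ n`).
* stage for `Acc'`, given `A, q, kl, n0`: first extend `A` by `hR` successively for all `r < q` (induction),
  obtaining `A1` which agrees with `A` below `n0`, has `¬ L n' (A1 n')` for all `n' ≥ n0`, and
  satisfies `Rq r A1 (m r)` for all `r < q`; let `n1` be at least `n0` and all `m r`. Apply the given `stage` to
  `A1`, the number `q`, the set `{i | 2 i ∈ kl}` (restricted to `range q`) and `n1`, and get `n ≥ n1`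
  and `A'`. If `L n (A' n)` and no `Acc i A' n` for `i < q` not in the set, then no
  `Acc' i' A' n` for `i' < q`, `i' ∉ kl`: for `i' = 2 i` as `i < q`; for `i' = 2 r + 1` since `r < q` and
  `Rq r A' (m r)` with `m r ≤ n1 ≤ n` (`hRloc`: `A' = A1` below `n1`). In the other case
  some `Acc i A' n` with `i < q`, `2 i ∉ kl`: here one needs `2 i < q`; therefore apply
  `stage` with the number `(q + 1) / 2` instead of `q` (the `i` with `2 i < q`).
  For `n0 ≤ n' < n1` we have `A' n' = A1 n'`, so `¬ L n' (A' n')`.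
-/

namespace Pool.Agent.Helper67.EL

open Finset Function Classical
open Pool.Agent.Helper67.EQP

theorem immune2 {D : ℕ → Type} (L : (n : ℕ) → D n → Prop)
    (Acc : ℕ → ((n : ℕ) → D n) → ℕ → Prop) (Rq : ℕ → ((n : ℕ) → D n) → ℕ → Prop)
    (A0 : (n : ℕ) → D n)
    (loc : ∀ i n, ∃ b, ∀ A A' : (n : ℕ) → D n, (∀ n' < b, A n' = A' n') →
      (Acc i A n ↔ Acc i A' n))
    (hRloc : ∀ r m, ∀ A A' : (n : ℕ) → D n, (∀ n' < m, A n' = A' n') →
      (Rq r A m ↔ Rq r A' m))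
    (stage : ∀ (A : (n : ℕ) → D n) (q : ℕ) (kl : Finset ℕ) (n0 : ℕ),
      ∃ (n : ℕ) (A' : (n : ℕ) → D n), n0 ≤ n ∧
      (∀ n' < n0, A' n' = A n') ∧ (∀ n', n0 ≤ n' → n' ≠ n → ¬ L n' (A' n')) ∧
      ((L n (A' n) ∧ ∀ i < q, i ∉ kl → ¬ Acc i A' n) ∨
        (¬ L n (A' n) ∧ ∃ i < q, i ∉ kl ∧ Acc i A' n)))
    (hR : ∀ (A : (n : ℕ) → D n) (r n0 : ℕ), ∃ (m : ℕ) (A' : (n : ℕ) → D n),
      (∀ n' < n0, A' n' = A n') ∧ (∀ n', n0 ≤ n' → ¬ L n' (A' n')) ∧ Rq r A' m) :
    ∃ A : (n : ℕ) → D n, {n | L n (A n)}.Infinite ∧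
      (∀ i, {n | Acc i A n} ⊆ {n | L n (A n)} → {n | Acc i A n}.Finite) ∧
      ∀ r, ∃ m, Rq r A m := by
  have hreach : ∀ (A : (n : ℕ) → D n) (n0 q : ℕ), ∃ (n1 : ℕ) (A1 : (n : ℕ) → D n), n0 ≤ n1 ∧
      (∀ n' < n0, A1 n' = A n') ∧ (∀ n', n0 ≤ n' → ¬ L n' (A1 n')) ∧
      ∀ r < q, ∃ m ≤ n1, Rq r A1 m := by
    intro A n0 q
    induction q with
    | zero =>
      obtain ⟨m, A1, h1, h2, _⟩ := hR A 0 n0
      exact ⟨n0, A1, le_rfl, h1, h2, fun r hr => absurd hr (Nat.not_lt_zero r)⟩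
    | succ q ih =>
      obtain ⟨n1, A1, h1, h2, h3, h4⟩ := ih
      obtain ⟨m, A2, g1, g2, g3⟩ := hR A1 q n1
      refine ⟨max n1 m, A2, h1.trans (le_max_left _ _), fun n' hn' => ?_, fun n' hn' => ?_,
        fun r hr => ?_⟩
      · rw [g1 n' (hn'.trans_le h1), h2 n' hn']
      · rcases Nat.lt_or_ge n' n1 with h | h
        · rw [g1 n' h]
          exact h3 n' hn'
        · exact g2 n' h
      · rcases Nat.lt_or_ge r q with h | h
        · obtain ⟨m', hm', hrq⟩ := h4 r h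
          refine ⟨m', hm'.trans (le_max_left _ _), ?_⟩
          refine (hRloc r m' A2 A1 fun n' hn' => ?_).mpr hrq
          exact g1 n' (hn'.trans_le hm')
        · have hrq : r = q := by omega
          rw [hrq]
          exact ⟨m, le_max_right _ _, g3⟩
  let Acc' : ℕ → ((n : ℕ) → D n) → ℕ → Prop := fun i A n =>
    if i % 2 = 0 then Acc (i / 2) A n else (L n (A n) ∧ ¬ ∃ m ≤ n, Rq (i / 2) A m)
  have hev : ∀ i A n, Acc' (2 * i) A n ↔ Acc i A n := by
    intro i A n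
    have h1 : 2 * i % 2 = 0 := by omega
    have h2 : 2 * i / 2 = i := by omega
    simp only [Acc', h1, h2, if_true]
  have hod : ∀ r A n, Acc' (2 * r + 1) A n ↔ (L n (A n) ∧ ¬ ∃ m ≤ n, Rq r A m) := by
    intro r A n
    have h1 : ¬ (2 * r + 1) % 2 = 0 := by omega
    have h2 : (2 * r + 1) / 2 = r := by omega
    simp only [Acc', h2, if_neg h1]
  have hpar : ∀ i : ℕ, (∃ j, i = 2 * j) ∨ ∃ j, i = 2 * j + 1 := by
    intro i
    rcases Nat.even_or_odd' i with ⟨j, h | h⟩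
    · exact Or.inl ⟨j, h⟩
    · exact Or.inr ⟨j, h⟩
  have hloc' : ∀ i n, ∃ b, ∀ A A' : (n : ℕ) → D n, (∀ n' < b, A n' = A' n') →
      (Acc' i A n ↔ Acc' i A' n) := by
    intro i n
    rcases hpar i with ⟨j, rfl⟩ | ⟨r, rfl⟩
    · obtain ⟨b, hb⟩ := loc j n
      refine ⟨b, fun A A' h => ?_⟩
      rw [hev, hev]
      exact hb A A' h
    · refine ⟨n + 1, fun A A' h => ?_⟩
      rw [hod, hod, h n (Nat.lt_succ_self n)]
      refine and_congr_right fun _ => not_congr ?_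
      refine exists_congr fun m => and_congr_right fun hm => ?_
      exact hRloc r m A A' fun n' hn' => h n' (by omega)
  have hstage' : ∀ (A : (n : ℕ) → D n) (q : ℕ) (kl : Finset ℕ) (n0 : ℕ),
      ∃ (n : ℕ) (A' : (n : ℕ) → D n), n0 ≤ n ∧
      (∀ n' < n0, A' n' = A n') ∧ (∀ n', n0 ≤ n' → n' ≠ n → ¬ L n' (A' n')) ∧
      ((L n (A' n) ∧ ∀ i < q, i ∉ kl → ¬ Acc' i A' n) ∨
        (¬ L n (A' n) ∧ ∃ i < q, i ∉ kl ∧ Acc' i A' n)) := by
    intro A q kl n0
    obtain ⟨n1, A1, h1, h2, h3, h4⟩ := hreach A n0 q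
    obtain ⟨n, A', g1, g2, g3, g4⟩ := stage A1 ((q + 1) / 2)
      ((range q).filter fun i => 2 * i ∈ kl) n1
    refine ⟨n, A', h1.trans g1, fun n' hn' => ?_, fun n' hn' hne => ?_, ?_⟩
    · rw [g2 n' (hn'.trans_le h1), h2 n' hn']
    · rcases Nat.lt_or_ge n' n1 with h | h
      · rw [g2 n' h]
        exact h3 n' hn'
      · exact g3 n' h hne
    · rcases g4 with ⟨e1, e2⟩ | ⟨e1, i, hi, hik, hacc⟩
      · refine Or.inl ⟨e1, fun i hi hik => ?_⟩
        rcases hpar i with ⟨j, rfl⟩ | ⟨r, rfl⟩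
        · rw [hev]
          refine e2 j (by omega) fun hj => hik ?_
          exact (mem_filter.mp hj).2
        · rw [hod]
          rintro ⟨_, hno⟩
          obtain ⟨m, hm, hrq⟩ := h4 r (by omega)
          refine hno ⟨m, hm.trans g1, ?_⟩
          exact (hRloc r m A' A1 fun n' hn' => g2 n' (hn'.trans_le hm)).mpr hrq
      · refine Or.inr ⟨e1, 2 * i, by omega, fun hk => hik ?_, (hev i A' n).mpr hacc⟩
        exact mem_filter.mpr ⟨mem_range.mpr (by omega), hk⟩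
  obtain ⟨A, hinf, hfin⟩ := immune L Acc' A0 hloc' hstage'
  refine ⟨A, hinf, fun i hi => ?_, fun r => ?_⟩
  · have h1 : {n | Acc' (2 * i) A n} = {n | Acc i A n} := Set.ext fun n => hev i A n
    have h2 := hfin (2 * i)
    rw [h1] at h2
    exact h2 hi
  · have h2 := hfin (2 * r + 1) fun n hn => ((hod r A n).mp hn).1
    obtain ⟨n, hn1, hn2⟩ := (hinf.sdiff h2).nonempty
    by_contra hno
    refine hn2 ((hod r A n).mpr ⟨hn1, ?_⟩)
    rintro ⟨m, _, hm⟩
    exact hno ⟨m, hm⟩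

end Pool.Agent.Helper67.EL
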