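import Pool.Agent.Helper67.EQP.CStage
import Pool.Agent.Helper67.LB.KDist

set_option autoImplicit false
set_option linter.unusedSectionVars false

/-!
Growth conditions. (EL-07; compare `EQP.growth2` in `EQP/CStage.lean`.)

Let `S = t n + n`, `T = (t n) ^ c + c`. For `n ≥ 2 c + 1` and `n ≥` an absolute constant:
`T ≤ S ^ (c + 1)`, `T.size ≤ (c + 1) * S.size`, `1 ≤ S.size`. In `growthO` everything is at most
`S ^ (a * S.size)` for a constant `a` depending on `k, q, c, d` and `n` large, and `VerySlow` gives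
`S ^ (a * S.size) < 2 ^ n`. In `growthP` everything is at most `S ^ a ≤ S ^ (a * S.size)`.
(`QQ` is defined in `LB/KDist.lean`; `t n ≤ S`, `n ≤ S`.)
-/

namespace Pool.Agent.Helper67.EL

open Finset Function Classical
open Pool.Agent.Helper67.EQP Pool.Agent.Helper67.LB

/-- Common preparation. -/
private theorem prep {t : ℕ → ℕ} (n c : ℕ) (hn : c + 1 ≤ n) :
    t n ^ c + c ≤ (t n + n) ^ (c + 1) ∧
      (t n ^ c + c).size ≤ (c + 1) * (t n + n).size ∧ 1 ≤ (t n + n).size := by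
  set S := t n + n with hS
  set T := t n ^ c + c with hT
  have hSn : n ≤ S := by omega
  have hS1 : 1 ≤ S := by omega
  have hST : t n ≤ S := by omega
  have htc : t n ^ c ≤ S ^ c := Nat.pow_le_pow_left hST c
  have hSc : 1 ≤ S ^ c := Nat.one_le_pow _ _ hS1
  have hT1 : T ≤ S ^ (c + 1) := by
    rw [hT, pow_succ]
    have h2 : c + 1 ≤ S := by omega
    have h3 : S ^ c * (c + 1) ≤ S ^ c * S := Nat.mul_le_mul_left _ h2
    have h4 : t n ^ c + c ≤ S ^ c * (c + 1) := by nlinarith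
    omega
  have hsz : T.size ≤ (c + 1) * S.size := by
    rw [Nat.size_le]
    calc T ≤ S ^ (c + 1) := hT1
      _ < (2 ^ S.size) ^ (c + 1) := Nat.pow_lt_pow_left (Nat.lt_size_self S) (by omega)
      _ = 2 ^ ((c + 1) * S.size) := by rw [← pow_mul, mul_comm]
  have hS0 : 1 ≤ S.size := by
    have := Nat.size_pos.mpr (show 0 < S by omega)
    omega
  exact ⟨hT1, hsz, hS0⟩

/-- `a T + b ≤ S ^ (c + 2)` when `a + b ≤ S`. -/
private theorem lin_le {S T a b c : ℕ} (hS1 : 1 ≤ S) (hT : T ≤ S ^ (c + 1)) (hab : a + b ≤ S) :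
    a * T + b ≤ S ^ (c + 2) := by
  have h2 : 1 ≤ S ^ (c + 1) := Nat.one_le_pow _ _ hS1
  calc a * T + b ≤ a * S ^ (c + 1) + b * S ^ (c + 1) := by
        have h3 := Nat.mul_le_mul_left a hT
        have h4 := Nat.mul_le_mul_left b h2
        omega
    _ = (a + b) * S ^ (c + 1) := by ring
    _ ≤ S * S ^ (c + 1) := Nat.mul_le_mul_right _ hab
    _ = S ^ (c + 2) := by ring

theorem growthO {t : ℕ → ℕ} (hs : VerySlow t) (k c d q : ℕ) : ∃ n1 : ℕ, ∀ n ≥ n1,
    4 * (160 * (32 * (((2 * k + 8 + d + 4) * (t n ^ c + c) + q + d + 4) +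
      20 * (t n ^ c + c) + 20)) ^ ((k + 3) * (t n ^ c + c).size + d + 5)) < 2 ^ n := by
  obtain ⟨n1, hn1⟩ := hs (1 + (c + 2) * ((k + 3) * (c + 1) + d + 5))
  obtain ⟨A, hA1, hA2, hA3⟩ : ∃ A : ℕ, 640 ≤ A ∧ c + 1 ≤ A ∧
      32 * (2 * k + 8 + d + 4 + 20) + 32 * (q + d + 4 + 20) ≤ A :=
    ⟨max 640 (max (c + 1) (32 * (2 * k + 8 + d + 4 + 20) + 32 * (q + d + 4 + 20))),
      le_max_left _ _, (le_max_left _ _).trans (le_max_right _ _),
      (le_max_right _ _).trans (le_max_right _ _)⟩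
  refine ⟨max n1 A, fun n hn => ?_⟩
  have hn_1 : n1 ≤ n := le_trans (le_max_left _ _) hn
  have hn_2 : A ≤ n := le_trans (le_max_right _ _) hn
  have h1 := hn1 n hn_1
  obtain ⟨hT1, hsz, hS0⟩ := prep (t := t) n c (hA2.trans hn_2)
  set S := t n + n with hS
  set T := t n ^ c + c with hT
  have hSn : n ≤ S := by omega
  have hS1 : 1 ≤ S := by omega
  have hbase : 32 * (((2 * k + 8 + d + 4) * T + q + d + 4) + 20 * T + 20) ≤ S ^ (c + 2) := by
    have h2 := lin_le (a := 32 * (2 * k + 8 + d + 4 + 20)) (b := 32 * (q + d + 4 + 20)) hS1 hT1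
      (hA3.trans (hn_2.trans hSn))
    calc 32 * (((2 * k + 8 + d + 4) * T + q + d + 4) + 20 * T + 20)
        = 32 * (2 * k + 8 + d + 4 + 20) * T + 32 * (q + d + 4 + 20) := by ring
      _ ≤ S ^ (c + 2) := h2
  have hexp : (k + 3) * T.size + d + 5 ≤ ((k + 3) * (c + 1) + d + 5) * S.size := by
    have h3 : (k + 3) * T.size ≤ (k + 3) * ((c + 1) * S.size) := Nat.mul_le_mul_left _ hsz
    have h4 : (d + 5) * 1 ≤ (d + 5) * S.size := Nat.mul_le_mul_left _ hS0
    calc (k + 3) * T.size + d + 5 ≤ (k + 3) * ((c + 1) * S.size) + (d + 5) * S.size := by omega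
      _ = ((k + 3) * (c + 1) + d + 5) * S.size := by ring
  have h640 : 4 * 160 ≤ S := hA1.trans (hn_2.trans hSn)
  calc 4 * (160 * (32 * (((2 * k + 8 + d + 4) * T + q + d + 4) + 20 * T + 20)) ^
        ((k + 3) * T.size + d + 5))
      = (4 * 160) * (32 * (((2 * k + 8 + d + 4) * T + q + d + 4) + 20 * T + 20)) ^
        ((k + 3) * T.size + d + 5) := by ring
    _ ≤ S * (S ^ (c + 2)) ^ ((k + 3) * T.size + d + 5) :=
        Nat.mul_le_mul h640 (Nat.pow_le_pow_left hbase _)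
    _ ≤ S * (S ^ (c + 2)) ^ (((k + 3) * (c + 1) + d + 5) * S.size) :=
        Nat.mul_le_mul_left _ (Nat.pow_le_pow_right (Nat.one_le_pow _ _ hS1) hexp)
    _ = S ^ (1 + (c + 2) * (((k + 3) * (c + 1) + d + 5) * S.size)) := by
        rw [← pow_mul, pow_add, pow_one]
    _ ≤ S ^ ((1 + (c + 2) * ((k + 3) * (c + 1) + d + 5)) * S.size) := by
        apply Nat.pow_le_pow_right hS1
        calc 1 + (c + 2) * (((k + 3) * (c + 1) + d + 5) * S.size)
            ≤ S.size + (c + 2) * (((k + 3) * (c + 1) + d + 5) * S.size) :=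
              Nat.add_le_add_right hS0 _
          _ = (1 + (c + 2) * ((k + 3) * (c + 1) + d + 5)) * S.size := by ring
    _ < 2 ^ n := h1

theorem growthP {t : ℕ → ℕ} (hs : VerySlow t) (j c Lam : ℕ) : ∃ n1 : ℕ, ∀ n ≥ n1,
    16 * QQ j ((t n ^ c + c + 1) * j + (t n ^ c + c)) (t n ^ c + c) Lam < 2 ^ n := by
  obtain ⟨n1, hn1⟩ := hs (1 + (c + 2) * (j + 2))
  obtain ⟨A, hA1, hA2, hA3, hA4⟩ : ∃ A : ℕ, 2576 ≤ A ∧ c + 1 ≤ A ∧
      32 * (j + 1 + 20) + 32 * (j + 20) ≤ A ∧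
      64 * Lam * (j + 1 + 40) + 64 * Lam * (j + 40) ≤ A :=
    ⟨max 2576 (max (c + 1) (max (32 * (j + 1 + 20) + 32 * (j + 20))
      (64 * Lam * (j + 1 + 40) + 64 * Lam * (j + 40)))),
      le_max_left _ _, (le_max_left _ _).trans (le_max_right _ _),
      (le_max_left _ _).trans ((le_max_right _ _).trans (le_max_right _ _)),
      (le_max_right _ _).trans ((le_max_right _ _).trans (le_max_right _ _))⟩
  refine ⟨max n1 A, fun n hn => ?_⟩
  have hn_1 : n1 ≤ n := le_trans (le_max_left _ _) hn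
  have hn_2 : A ≤ n := le_trans (le_max_right _ _) hn
  have h1 := hn1 n hn_1
  obtain ⟨hT1, hsz, hS0⟩ := prep (t := t) n c (hA2.trans hn_2)
  set S := t n + n with hS
  set T := t n ^ c + c with hT
  have hSn : n ≤ S := by omega
  have hS1 : 1 ≤ S := by omega
  have hbase : 32 * (((T + 1) * j + T) + 20 * T + 20) ≤ S ^ (c + 2) := by
    have h2 := lin_le (a := 32 * (j + 1 + 20)) (b := 32 * (j + 20)) hS1 hT1
      (hA3.trans (hn_2.trans hSn))
    calc 32 * (((T + 1) * j + T) + 20 * T + 20)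
        = 32 * (j + 1 + 20) * T + 32 * (j + 20) := by ring
      _ ≤ S ^ (c + 2) := h2
  have hsec : 64 * Lam * (((T + 1) * j + T) + 40 * (T + 1)) ≤ S ^ (c + 2) := by
    have h2 := lin_le (a := 64 * Lam * (j + 1 + 40)) (b := 64 * Lam * (j + 40)) hS1 hT1
      (hA4.trans (hn_2.trans hSn))
    calc 64 * Lam * (((T + 1) * j + T) + 40 * (T + 1))
        = 64 * Lam * (j + 1 + 40) * T + 64 * Lam * (j + 40) := by ring
      _ ≤ S ^ (c + 2) := h2
  have hS2 : S ^ (c + 2) ≤ (S ^ (c + 2)) ^ (j + 2) :=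
    Nat.le_self_pow (by omega) _
  have h2576 : 16 * 161 ≤ S := hA1.trans (hn_2.trans hSn)
  calc 16 * QQ j ((T + 1) * j + T) T Lam
      = 16 * (160 * (32 * (((T + 1) * j + T) + 20 * T + 20)) ^ (j + 2) +
          64 * Lam * (((T + 1) * j + T) + 40 * (T + 1))) := rfl
    _ ≤ 16 * (160 * (S ^ (c + 2)) ^ (j + 2) + (S ^ (c + 2)) ^ (j + 2)) := by
        apply Nat.mul_le_mul_left
        apply Nat.add_le_add
        · exact Nat.mul_le_mul_left _ (Nat.pow_le_pow_left hbase _)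
        · exact hsec.trans hS2
    _ = (16 * 161) * (S ^ (c + 2)) ^ (j + 2) := by ring
    _ ≤ S * (S ^ (c + 2)) ^ (j + 2) := Nat.mul_le_mul_right _ h2576
    _ = S ^ (1 + (c + 2) * (j + 2)) := by rw [← pow_mul, pow_add, pow_one]
    _ ≤ S ^ ((1 + (c + 2) * (j + 2)) * S.size) := by
        apply Nat.pow_le_pow_right hS1
        exact Nat.le_mul_of_pos_right _ (by omega)
    _ < 2 ^ n := h1

end Pool.Agent.Helper67.EL
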