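import Pool.Agent.Helper67.EL.PCons
import Pool.Agent.Helper67.LB.KDist

set_option autoImplicit false
set_option linter.unusedSectionVars false

/-!
The hard distributions for all keys. (EL-14; compare `LB.dist_key` in `LB/KDist.lean`, whose proof
contains the cases `some (false, κ)` and `some (true, κ)` up to notation.)

* `κ = none`: `LB.sip_comp' (j + 1) (2 * n) K w`: bound
  `64 * (j + 1) * (K + 5 * (2 * n)) / 2 ^ (2 * n) ≤ QQ / 4 ^ n` as `n = rkP n none ≤ T`,
  `j + 1 ≤ Lam`; for `n = 0` (`sip_comp'` needs `0 < u`) take point masses, the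
  difference is at most `1 ≤ QQ j K T Lam / 4 ^ 0`.
* `κ = some (false, κ')`: `EQP.avg_comp (j + 1) (par κ') K w`.
* `κ = some (true, κ')`: `LB.sip_comp' k (8 * (κ'.length + 1)) K w` if `0 < k`; point masses if
  `k = 0` (then `j < k` is impossible).
-/

namespace Pool.Agent.Helper67.EL

open Finset Function Classical
open Pool.Agent.Helper67.EQP Pool.Agent.Helper67.LB

theorem dist_keyP (k j n K w T Lam : ℕ) (hw : w ≤ K) (hj : j + 1 ≤ Lam) (hk : k ≤ Lam)
    (κ : PK) :
    ∃ μ1 μ0 : (iP k j n κ → Bool) → ℝ, IsDist μ1 ∧ IsDist μ0 ∧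
      (∀ x, ¬ Yq k j n κ x → μ1 x = 0) ∧ (∀ x, ¬ Nq k j n κ x → μ0 x = 0) ∧
      (rkP n κ ≤ T → (∀ κ', κ = some (true, κ') → j < k) →
        ∀ f : (iP k j n κ → Bool) → Bool, Comp w j (2 ^ K) f →
          |∑ x, μ1 x * b2 (f x) - ∑ x, μ0 x * b2 (f x)| ≤
            (QQ j K T Lam : ℝ) / 4 ^ rkP n κ) := by
  have hLam : ((j + 1 : ℕ) : ℝ) ≤ Lam := by exact_mod_cast hj
  have hkLam : (k : ℝ) ≤ Lam := by exact_mod_cast hk
  rcases κ with _ | ⟨c, κ'⟩
  · rcases Nat.eq_zero_or_pos n with rfl | hn
    · obtain ⟨y, hy⟩ := exists_Yq k j 0 none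
      obtain ⟨z, hz⟩ := exists_Nq k j 0 none
      refine ⟨fun x => if x = y then 1 else 0, fun x => if x = z then 1 else 0,
        isDist_single _, isDist_single _, ?_, ?_, ?_⟩
      · intro x hx
        beta_reduce
        rw [if_neg]
        rintro rfl
        exact hx hy
      · intro x hx
        beta_reduce
        rw [if_neg]
        rintro rfl
        exact hx hz
      · intro _ _ f _
        have e1 : ∀ y0 : iP k j 0 none → Bool,
            ∑ x, (if x = y0 then (1 : ℝ) else 0) * b2 (f x) = b2 (f y0) := by
          intro y0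
          rw [Finset.sum_eq_single y0]
          · rw [if_pos rfl, one_mul]
          · intro b _ hb
            rw [if_neg hb, zero_mul]
          · intro h
            exact absurd (Finset.mem_univ _) h
        rw [e1, e1]
        have h4 : (4 : ℝ) ^ rkP 0 none = 1 := by
          change (4 : ℝ) ^ 0 = 1
          norm_num
        rw [h4, div_one]
        have hb : |(b2 (f y) : ℝ) - b2 (f z)| ≤ 1 := by
          cases f y <;> cases f z <;> simp [b2]
        refine hb.trans ?_
        unfold LB.QQ
        have : 1 ≤ 160 * (32 * (K + 20 * T + 20)) ^ (j + 2) + 64 * Lam * (K + 40 * (T + 1)) := by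
          have h5 : 0 < (32 * (K + 20 * T + 20)) ^ (j + 2) := by positivity
          omega
        exact_mod_cast this
    · obtain ⟨μ1, μ0, h1, h0, hs1, hs0, hb⟩ := sip_comp' (j + 1) (2 * n) K w (Nat.succ_pos _)
        (by omega) (by omega)
      refine ⟨μ1, μ0, h1, h0, ?_, ?_, ?_⟩
      · intro x hx
        apply hs1
        have hx' : ¬ (TT (Y := Fin (4 * (2 * n)) → Bool) (j + 1) x = true) := hx
        exact Bool.eq_false_iff.mpr hx'
      · intro x hx
        apply hs0
        have hx' : ¬ (TT (Y := Fin (4 * (2 * n)) → Bool) (j + 1) x = false) := hx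
        cases h : TT (Y := Fin (4 * (2 * n)) → Bool) (j + 1) x with
        | true => rfl
        | false => exact absurd h hx'
      · intro ht _ f hf
        have ht' : n ≤ T := ht
        refine (hb j (Nat.lt_succ_self j) f hf).trans ?_
        change _ ≤ (QQ j K T Lam : ℝ) / 4 ^ n
        apply div_le_div₀ (Nat.cast_nonneg _)
        · unfold LB.QQ
          push_cast at hLam ⊢
          have h5 : ((n : ℕ) : ℝ) ≤ T := by exact_mod_cast ht'
          have h5' : (0 : ℝ) ≤ n := Nat.cast_nonneg _
          have h7 : (K : ℝ) + 5 * (2 * n) ≤ K + 40 * (T + 1) := by linarith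
          have h8 : (64 : ℝ) * (j + 1) * (K + 5 * (2 * n)) ≤ 64 * Lam * (K + 40 * (T + 1)) := by
            apply mul_le_mul
            · linarith
            · exact h7
            · positivity
            · positivity
          have h9 : (0 : ℝ) ≤ 160 * (32 * (K + 20 * T + 20)) ^ (j + 2) := by positivity
          linarith
        · positivity
        · have h5 : (4 : ℝ) ^ n = 2 ^ (2 * n) := by
            rw [pow_mul]; norm_num
          rw [h5]
  · cases c with
    | false =>
      obtain ⟨μ1, μ0, h1, h0, hs1, hs0, hb⟩ := avg_comp (j + 1) (par κ') K w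
        (by rw [show par κ' = 4 * κ'.length + 4 from rfl]; omega) (Nat.succ_pos _) (by omega)
      refine ⟨μ1, μ0, h1, h0, hs1, hs0, ?_⟩
      intro ht _ f hf
      have ht' : κ'.length ≤ T := ht
      have hf' : Comp w (j + 1) (2 ^ K) f := Comp.mono hf (Nat.le_succ j) le_rfl
      refine (hb f hf').trans ?_
      have e1 : Real.sqrt (2 ^ par κ') = 4 * 4 ^ κ'.length := by
        rw [Real.sqrt_eq_iff_mul_self_eq (by positivity) (by positivity)]
        have : (4 : ℝ) ^ κ'.length = 2 ^ (2 * κ'.length) := by
          rw [pow_mul]; norm_num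
        rw [this]
        rw [show par κ' = 4 * κ'.length + 4 from rfl]
        ring
      rw [e1]
      change _ ≤ (QQ j K T Lam : ℝ) / 4 ^ κ'.length
      apply div_le_div₀ (Nat.cast_nonneg _)
      · unfold LB.QQ
        push_cast
        have h5 : ((κ'.length : ℕ) : ℝ) ≤ T := by exact_mod_cast ht'
        have h6 : (32 * ((K : ℝ) + 5 * (4 * κ'.length + 4)) : ℝ) ≤ 32 * ((K : ℝ) + 20 * T + 20) := by
          linarith
        have h7 : (0 : ℝ) ≤ 32 * ((K : ℝ) + 5 * (4 * κ'.length + 4)) := by positivity
        have h8 := pow_le_pow_left₀ h7 h6 (j + 1 + 1)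
        have h9 : (0 : ℝ) ≤ 64 * Lam * (K + 40 * (T + 1)) := by positivity
        have h10 : j + 1 + 1 = j + 2 := rfl
        rw [h10] at h8 ⊢
        linarith
      · positivity
      · have : (0 : ℝ) < 4 ^ κ'.length := by positivity
        linarith
    | true =>
      by_cases hl : 0 < k
      · obtain ⟨μ1, μ0, h1, h0, hs1, hs0, hb⟩ := sip_comp' k (8 * (κ'.length + 1)) K w hl
          (by omega) (by omega)
        refine ⟨μ1, μ0, h1, h0, ?_, ?_, ?_⟩
        · intro x hx
          apply hs1
          have hx' : ¬ (TT (Y := Fin (wid κ') → Bool) k x = true) := hx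
          exact Bool.eq_false_iff.mpr hx'
        · intro x hx
          apply hs0
          have hx' : ¬ (TT (Y := Fin (wid κ') → Bool) k x = false) := hx
          cases h : TT (Y := Fin (wid κ') → Bool) k x with
          | true => rfl
          | false => exact absurd h hx'
        · intro ht hjk f hf
          have ht' : κ'.length ≤ T := ht
          refine (hb j (hjk κ' rfl) f hf).trans ?_
          change _ ≤ (QQ j K T Lam : ℝ) / 4 ^ κ'.length
          apply div_le_div₀ (Nat.cast_nonneg _)
          · unfold LB.QQ
            push_cast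
            have h5 : ((κ'.length : ℕ) : ℝ) ≤ T := by exact_mod_cast ht'
            have h7 : (K : ℝ) + 5 * (8 * (κ'.length + 1)) ≤ K + 40 * (T + 1) := by linarith
            have h8 : (64 : ℝ) * k * (K + 5 * (8 * (κ'.length + 1))) ≤
                64 * Lam * (K + 40 * (T + 1)) := by
              apply mul_le_mul
              · linarith
              · exact h7
              · positivity
              · positivity
            have h9 : (0 : ℝ) ≤ 160 * (32 * (K + 20 * T + 20)) ^ (j + 2) := by positivity
            linarith
          · positivity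
          · have h5 : (4 : ℝ) ^ κ'.length = 2 ^ (2 * κ'.length) := by
              rw [pow_mul]; norm_num
            rw [h5]
            exact pow_le_pow_right₀ (by norm_num) (by omega)
      · obtain ⟨y, hy⟩ := exists_Yq k j n (some (true, κ'))
        obtain ⟨z, hz⟩ := exists_Nq k j n (some (true, κ'))
        refine ⟨fun x => if x = y then 1 else 0, fun x => if x = z then 1 else 0,
          isDist_single _, isDist_single _, ?_, ?_, ?_⟩
        · intro x hx
          beta_reduce
          rw [if_neg]
          rintro rfl
          exact hx hy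
        · intro x hx
          beta_reduce
          rw [if_neg]
          rintro rfl
          exact hx hz
        · intro _ hjk
          have := hjk κ' rfl
          omega

end Pool.Agent.Helper67.EL
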