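import Pool.Agent.Helper67.LB.HAbs

set_option autoImplicit false
set_option linter.unusedSectionVars false

/-!
Lists of keys for an arbitrary set of keys. (EL-10; compare `EQP.goodL_append`, `EQP.exists_L` in
`EQP/CHyb.lean` and `LB/HList.lean`.)

`lev l` lists the keys of rank `l`. Take `L = lev n ++ lev (n+1) ++ ... ++ lev b` (empty if `b < n`). The sum over
`lev l` is at most `4 * 2 ^ l * (Q / 4 ^ l) = 4 * Q / 2 ^ l`, so the total is at most
`8 * Q / 2 ^ n`. Prove by induction on `j` that for `n' + j = b + 1`, `n ≤ n'` there is a list for the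
levels `n', ..., b` with sum at most `8 * Q / 2 ^ n'`.
-/

namespace Pool.Agent.Helper67.EL

open Finset Function Classical
open Pool.Agent.Helper67.EQP Pool.Agent.Helper67.LB

private theorem goodLG_append {K : Type} (rk : K → ℕ) {n b l : ℕ} (hn : n ≤ l) (ms ks : List K)
    (hms : ms.Nodup) (hml : ∀ κ ∈ ms, rk κ = l) (hks : GoodLK rk n b ks)
    (hkl : ∀ κ ∈ ks, l < rk κ) (hc : ∀ κ, l < rk κ → rk κ ≤ b → κ ∈ ks) :
    GoodLK rk n b (ms ++ ks) := by
  induction ms with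
  | nil => exact hks
  | cons κ ms ih =>
    rw [List.nodup_cons] at hms
    have hκ : rk κ = l := hml κ (by simp)
    refine ⟨?_, by omega, ?_, ih hms.2 (fun κ' h => hml κ' (by simp [h]))⟩
    · intro h
      rcases List.mem_append.mp h with h | h
      · exact hms.1 h
      · have := hkl κ h
        omega
    · intro κ' hb hκ'
      rw [hκ]
      by_contra hlt
      exact hκ' (List.mem_append.mpr (Or.inr (hc κ' (by omega) hb)))

private theorem sum_lev {K : Type} (rk : K → ℕ) (ms : List K) (l : ℕ)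
    (hml : ∀ κ ∈ ms, rk κ = l) (hlen : ms.length ≤ 4 * 2 ^ l) {Q : ℝ} (hQ : 0 ≤ Q) :
    (ms.map (fun κ => Q / 4 ^ rk κ)).sum ≤ 4 * Q / 2 ^ l := by
  have e2 : ms.map (fun κ => Q / 4 ^ rk κ) = List.replicate ms.length (Q / 4 ^ l) := by
    apply List.eq_replicate_iff.mpr
    refine ⟨by rw [List.length_map], ?_⟩
    intro x hx
    rw [List.mem_map] at hx
    obtain ⟨κ, hκ, rfl⟩ := hx
    rw [hml κ hκ]
  rw [e2, List.sum_replicate, nsmul_eq_mul]
  have h1 : (ms.length : ℝ) ≤ 4 * 2 ^ l := by exact_mod_cast hlen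
  have h2 : 0 ≤ Q / 4 ^ l := by positivity
  refine (mul_le_mul_of_nonneg_right h1 h2).trans (le_of_eq ?_)
  have e3 : (4 : ℝ) ^ l = 2 ^ l * 2 ^ l := by
    rw [← mul_pow]; norm_num
  rw [e3]
  have e4 : (2 : ℝ) ^ l ≠ 0 := by positivity
  field_simp

private theorem exists_LGj {K : Type} (rk : K → ℕ) (lev : ℕ → List K) (h1 : ∀ l, (lev l).Nodup)
    (h2 : ∀ l κ, κ ∈ lev l ↔ rk κ = l) (h3 : ∀ l, (lev l).length ≤ 4 * 2 ^ l) (n b : ℕ) {Q : ℝ}
    (hQ : 0 ≤ Q) (j n' : ℕ) (h : n' + j = b + 1) (hn : n ≤ n') :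
    ∃ L : List K, GoodLK rk n b L ∧ (∀ κ ∈ L, n' ≤ rk κ ∧ rk κ ≤ b) ∧
      (∀ κ, n' ≤ rk κ → rk κ ≤ b → κ ∈ L) ∧
      (L.map (fun κ => Q / 4 ^ rk κ)).sum ≤ 8 * Q / 2 ^ n' := by
  induction j generalizing n' with
  | zero =>
    refine ⟨[], trivial, fun κ hκ => absurd hκ (by simp), fun κ h1 h2 => by omega, ?_⟩
    simp only [List.map_nil, List.sum_nil]
    positivity
  | succ j ih =>
    obtain ⟨L, g1, g2, g3, g4⟩ := ih (n' + 1) (by omega) (by omega)
    refine ⟨lev n' ++ L, ?_, ?_, ?_, ?_⟩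
    · apply goodLG_append rk (l := n') hn _ _ (h1 n') (fun κ hκ => (h2 n' κ).1 hκ) g1
      · intro κ hκ
        have := g2 κ hκ
        omega
      · intro κ hκ hb
        exact g3 κ (by omega) hb
    · intro κ hκ
      rcases List.mem_append.mp hκ with hκ | hκ
      · rw [(h2 n' κ).1 hκ]
        omega
      · have := g2 κ hκ
        omega
    · intro κ hκ hb
      rw [List.mem_append]
      rcases Nat.eq_or_lt_of_le hκ with h5 | h5
      · exact Or.inl ((h2 n' κ).2 h5.symm)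
      · exact Or.inr (g3 κ (by omega) hb)
    · rw [List.map_append, List.sum_append]
      have e1 := sum_lev rk (lev n') n' (fun κ hκ => (h2 n' κ).1 hκ) (h3 n') hQ
      have e5 : 8 * Q / 2 ^ (n' + 1) = 4 * Q / 2 ^ n' := by
        rw [pow_succ]
        have e4 : (2 : ℝ) ^ n' ≠ 0 := by positivity
        field_simp
        ring
      rw [e5] at g4
      have e6 : 8 * Q / 2 ^ n' = 4 * Q / 2 ^ n' + 4 * Q / 2 ^ n' := by ring
      rw [e6]
      linarith

theorem exists_LG {K : Type} (rk : K → ℕ) (lev : ℕ → List K) (h1 : ∀ l, (lev l).Nodup)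
    (h2 : ∀ l κ, κ ∈ lev l ↔ rk κ = l) (h3 : ∀ l, (lev l).length ≤ 4 * 2 ^ l) (n b : ℕ) {Q : ℝ}
    (hQ : 0 ≤ Q) :
    ∃ L : List K, GoodLK rk n b L ∧ (∀ κ ∈ L, rk κ ≤ b) ∧
      (∀ κ, n ≤ rk κ → rk κ ≤ b → κ ∈ L) ∧
      (L.map (fun κ => Q / 4 ^ rk κ)).sum ≤ 8 * Q / 2 ^ n := by
  by_cases hnb : n ≤ b + 1
  · obtain ⟨L, a1, a2, a3, a4⟩ := exists_LGj rk lev h1 h2 h3 n b hQ (b + 1 - n) n (by omega) le_rfl
    exact ⟨L, a1, fun κ hκ => (a2 κ hκ).2, a3, a4⟩
  · refine ⟨[], trivial, fun κ hκ => absurd hκ (by simp), fun κ h1 h2 => by omega, ?_⟩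
    simp only [List.map_nil, List.sum_nil]
    positivity

end Pool.Agent.Helper67.EL
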