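import Pool.Agent.Helper67.EL.PComp
import Pool.Agent.Helper67.EL.PDist
import Pool.Agent.Helper67.EL.PList
import Pool.Agent.Helper67.EL.ONum

set_option autoImplicit false
set_option linter.unusedSectionVars false

/-!
The requirements for the free blocks: `Σ_{j+1}` is different from `Σ_j`, for `j < k`. (EL-15.)

Proof. `T = t n ^ M.c + M.c`, `K = (T + 1) * j + T`, `w = T`, `Lam = max (j + 1) k`, `n` at least
`n0` and the bound of `growthP ht j M.c Lam`. Suppose that for all `δ, τ, C` with the given beginning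
the machine and the block agree. Apply `LB.hyb_mainK` with the keys `PK`, `rk = rkP n`,
`Yp κ y = if rkP n κ < n then y = Xb .. κ else Yq k j n κ y`, `Np` similarly with `Nq`,
`B1 = BP .. True`, `B0 = BP .. False` (`BP_congr`; they differ only at `none`, whose rank is `n`),
`b = T`, `g X = b2 (decide (M.Accepts (WP .. X) n))` (`TMachine.accepts_congr`, `WP_congr` with `l = T + 1`... the
strings read have length at most `T`, so keys of rank `≤ T` matter), the distributions: for
`rkP n κ < n` the point mass at `Xb .. κ` (`EQP.isDist_single`), otherwise those of `dist_keyP`,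
`ε κ = QQ j K T Lam / 4 ^ rkP n κ`, and the list of `exists_LG` for
`lev l = (if l = n then [none] else []) ++ (allS l).map (fun κ => some (true, κ)) ++
(allS l).map (fun κ => some (false, κ))` (`EQP.allS`, `mem_allS`, `nodup_allS`, `length_allS`).
* `hv1`, `hv0`: consistent contents are given by data (`cons_data`), so the machine accepts iff
  `Alt (j + 1) true (fun y => WP .. (fstr n y) = true)` iff `TT (j + 1) (X none) = true`
  (`WP_target`) iff `b`.
* `hd`: for `κ = some (true, κ')` and `¬ fin` the function does not depend on `y` (`WP_nofin`), both averages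
  are equal; otherwise `dist_keyP` (`j < k` if `fin`) and `WP_mcomp` (`Comp.mono`,
  `(T + 1) * j ≤ K`).
We get `1 ≤ 2 * (8 * QQ / 2 ^ n)`, contradicting `growthP`.
-/

namespace Pool.Agent.Helper67.EL

open Finset Function Classical
open Pool.Agent.Helper67.EQP Pool.Agent.Helper67.LB

variable (k : ℕ) (fin : Prop) (N : ℕ → XMachine (k + 1)) (F : ℕ → OFun)

/-- The list of the keys of rank `l`. -/
private noncomputable def levP (n l : ℕ) : List PK :=
  (if l = n then [none] else []) ++ ((allS l).map (fun κ => (some (true, κ) : PK)) ++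
    (allS l).map (fun κ => (some (false, κ) : PK)))

private theorem levP_nodup (n l : ℕ) : (levP n l).Nodup := by
  unfold levP
  have hin : ∀ b : Bool, Function.Injective (fun κ : List Bool => (some (b, κ) : PK)) := by
    intro b κ κ' h
    simpa using h
  refine List.Nodup.append ?_ (List.Nodup.append ((nodup_allS l).map (hin true))
    ((nodup_allS l).map (hin false)) ?_) ?_
  · split_ifs
    · exact List.nodup_singleton _
    · exact List.nodup_nil
  · intro a ha hb
    obtain ⟨κ, -, rfl⟩ := List.mem_map.mp ha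
    obtain ⟨κ', -, h⟩ := List.mem_map.mp hb
    simp at h
  · intro a ha hb
    have h1 : a = none := by
      split_ifs at ha
      · simpa using ha
      · simp at ha
    subst h1
    rcases List.mem_append.mp hb with hb | hb
    · obtain ⟨κ', -, h⟩ := List.mem_map.mp hb
      simp at h
    · obtain ⟨κ', -, h⟩ := List.mem_map.mp hb
      simp at h

private theorem mem_levP (n l : ℕ) (κ : PK) : κ ∈ levP n l ↔ rkP n κ = l := by
  unfold levP
  rw [List.mem_append, List.mem_append, List.mem_map, List.mem_map]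
  match κ with
  | none =>
    constructor
    · rintro (h | ⟨κ', -, h⟩ | ⟨κ', -, h⟩)
      · by_cases hl : l = n
        · exact hl.symm
        · rw [if_neg hl] at h
          simp at h
      · simp at h
      · simp at h
    · intro h
      left
      have hl : l = n := h.symm
      rw [if_pos hl]
      simp
  | some (b, κ') =>
    constructor
    · rintro (h | ⟨κ'', h0, h⟩ | ⟨κ'', h0, h⟩)
      · split_ifs at h
        · simp at h
        · simp at h
      · simp only [Option.some.injEq, Prod.mk.injEq] at h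
        obtain ⟨-, rfl⟩ := h
        exact mem_allS.mp h0
      · simp only [Option.some.injEq, Prod.mk.injEq] at h
        obtain ⟨-, rfl⟩ := h
        exact mem_allS.mp h0
    · intro h
      have h' : κ'.length = l := h
      right
      cases b with
      | true => exact Or.inl ⟨κ', mem_allS.mpr h', rfl⟩
      | false => exact Or.inr ⟨κ', mem_allS.mpr h', rfl⟩

private theorem levP_length (n l : ℕ) : (levP n l).length ≤ 4 * 2 ^ l := by
  unfold levP
  rw [List.length_append, List.length_append, List.length_map, List.length_map, length_allS]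
  have h1 : (if l = n then [(none : PK)] else []).length ≤ 1 := by
    split_ifs <;> simp
  have h2 : 1 ≤ 2 ^ l := Nat.one_le_two_pow
  omega

theorem reqP {t : ℕ → ℕ} (ht : VerySlow t) (j : ℕ) (hj : fin → j < k) (M : TMachine t j)
    (n0 : ℕ) : ∃ n, n0 ≤ n ∧ ∀ (δ0 : (κ : List Bool) → Pair κ)
      (τ0 : (κ : List Bool) → TPair k κ) (β : ℕ → Bool) (C0 : FCont),
      ∃ (δ : (κ : List Bool) → Pair κ) (τ : (κ : List Bool) → TPair k κ) (C : FCont),
        (∀ κ, κ.length < n → δ κ = δ0 κ) ∧ (∀ κ, κ.length < n → τ κ = τ0 κ) ∧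
        (∀ j' n', n' < n → C j' n' = C0 j' n') ∧
        ¬ (M.Accepts (BO k fin N (XO k fin N F δ τ β C) τ C) n ↔
          Alt (j + 1) true (fun y : FCell j n =>
            BO k fin N (XO k fin N F δ τ β C) τ C (fstr n y) = true)) := by
  obtain ⟨n1, hn1⟩ := growthP ht j M.c (max (j + 1) k)
  obtain ⟨n, hn⟩ : ∃ n, n = max n0 n1 := ⟨_, rfl⟩
  have hnn0 : n0 ≤ n := by rw [hn]; exact le_max_left _ _
  have hnum := hn1 n (by rw [hn]; exact le_max_right _ _)
  refine ⟨n, hnn0, ?_⟩
  intro δ0 τ0 β C0
  by_contra hcon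
  push Not at hcon
  have hcomp := fun (X : ContK (iP k j n)) (κ : PK) => WP_mcomp k fin N j n C0 X κ M
  have hgX : ∀ X X' : ContK (iP k j n), (∀ κ, rkP n κ ≤ t n ^ M.c + M.c → X κ = X' κ) →
      (M.Accepts (WP k fin N j n C0 X) n ↔ M.Accepts (WP k fin N j n C0 X') n) := by
    intro X X' h
    exact M.accepts_congr n fun s hs =>
      WP_congr k fin N j n C0 (l := t n ^ M.c + M.c) (fun κ hκ => h κ hκ.le) s hs
  have hworld : ∀ (b : Prop) (X : ContK (iP k j n)),
      (∀ κ, rkP n κ < n → X κ = Xb k fin N F j n δ0 τ0 β C0 κ) →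
      (∀ κ, n ≤ rkP n κ → (BP k fin N F j n β C0 b κ X → Yq k j n κ (X κ)) ∧
        (¬ BP k fin N F j n β C0 b κ X → Nq k j n κ (X κ))) →
      (M.Accepts (WP k fin N j n C0 X) n ↔ b) := by
    intro b X h1 h2
    obtain ⟨δ, τ, C, e1, e2, e3, e4⟩ := cons_data k fin N F j n δ0 τ0 β C0 b X h1 h2
    have h3 := hcon δ τ C e1 e2 e3
    rw [e4] at h3
    rw [h3]
    have h4 : (Alt (j + 1) true (fun y : FCell j n =>
        WP k fin N j n C0 X (fstr n y) = true)) ↔
        TT (Y := Fin (4 * (2 * n)) → Bool) (j + 1) (X none) = true := by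
      unfold TT
      rw [decide_eq_true_iff]
      have h5 : (fun y : FCell j n => WP k fin N j n C0 X (fstr n y) = true) =
          (fun y : FCell j n => X none y = true) := by
        funext y
        rw [WP_target]
      rw [h5]
    rw [h4]
    have h6 := h2 none (le_refl n)
    constructor
    · intro h7
      by_contra hb
      have h8 : TT (Y := Fin (4 * (2 * n)) → Bool) (j + 1) (X none) = false := h6.2 hb
      rw [h8] at h7
      exact Bool.false_ne_true h7
    · intro hb
      exact h6.1 hb
  generalize t n ^ M.c + M.c = T at hnum hcomp hgX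
  obtain ⟨Lam, hLam⟩ : ∃ Lam, Lam = max (j + 1) k := ⟨_, rfl⟩
  obtain ⟨K, hK⟩ : ∃ K, K = (T + 1) * j + T := ⟨_, rfl⟩
  rw [← hLam, ← hK] at hnum
  have hwK : T ≤ K := by rw [hK]; exact Nat.le_add_left _ _
  have hkK : (T + 1) * j ≤ K := by rw [hK]; exact Nat.le_add_right _ _
  have hjL : j + 1 ≤ Lam := by rw [hLam]; exact le_max_left _ _
  have hkL : k ≤ Lam := by rw [hLam]; exact le_max_right _ _
  obtain ⟨Yp, hYp⟩ : ∃ Yp : (κ : PK) → (iP k j n κ → Bool) → Prop, Yp = fun κ y =>
    (rkP n κ < n → y = Xb k fin N F j n δ0 τ0 β C0 κ) ∧ (n ≤ rkP n κ → Yq k j n κ y) := ⟨_, rfl⟩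
  obtain ⟨Np, hNp⟩ : ∃ Np : (κ : PK) → (iP k j n κ → Bool) → Prop, Np = fun κ y =>
    (rkP n κ < n → y = Xb k fin N F j n δ0 τ0 β C0 κ) ∧ (n ≤ rkP n κ → Nq k j n κ y) := ⟨_, rfl⟩
  have hYe : ∀ κ, ∃ y, Yp κ y := by
    intro κ
    rw [hYp]
    by_cases h : rkP n κ < n
    · exact ⟨Xb k fin N F j n δ0 τ0 β C0 κ, fun _ => rfl, fun h' => absurd h (not_lt.mpr h')⟩
    · obtain ⟨y, hy⟩ := exists_Yq k j n κ
      exact ⟨y, fun h' => absurd h' h, fun _ => hy⟩
  have hNe : ∀ κ, ∃ y, Np κ y := by
    intro κ
    rw [hNp]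
    by_cases h : rkP n κ < n
    · exact ⟨Xb k fin N F j n δ0 τ0 β C0 κ, fun _ => rfl, fun h' => absurd h (not_lt.mpr h')⟩
    · obtain ⟨y, hy⟩ := exists_Nq k j n κ
      exact ⟨y, fun h' => absurd h' h, fun _ => hy⟩
  have hdist : ∀ κ : PK, ∃ μ1 μ0 : (iP k j n κ → Bool) → ℝ, IsDist μ1 ∧ IsDist μ0 ∧
      (∀ x, ¬ Yp κ x → μ1 x = 0) ∧ (∀ x, ¬ Np κ x → μ0 x = 0) ∧
      (n ≤ rkP n κ → rkP n κ ≤ T → (∀ κ', κ = some (true, κ') → j < k) →
        ∀ f : (iP k j n κ → Bool) → Bool, Comp T j (2 ^ K) f →
          |∑ x, μ1 x * b2 (f x) - ∑ x, μ0 x * b2 (f x)| ≤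
            (QQ j K T Lam : ℝ) / 4 ^ rkP n κ) := by
    intro κ
    by_cases h : rkP n κ < n
    · refine ⟨fun x => if x = Xb k fin N F j n δ0 τ0 β C0 κ then 1 else 0,
        fun x => if x = Xb k fin N F j n δ0 τ0 β C0 κ then 1 else 0, isDist_single _,
        isDist_single _, ?_, ?_, fun h' => absurd h (not_lt.mpr h')⟩
      · intro x hx
        rw [hYp] at hx
        refine if_neg ?_
        rintro rfl
        exact hx ⟨fun _ => rfl, fun h' => absurd h (not_lt.mpr h')⟩
      · intro x hx
        rw [hNp] at hx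
        refine if_neg ?_
        rintro rfl
        exact hx ⟨fun _ => rfl, fun h' => absurd h (not_lt.mpr h')⟩
    · obtain ⟨μ1, μ0, d1, d0, s1, s0, dd⟩ := dist_keyP k j n K T T Lam hwK hjL hkL κ
      refine ⟨μ1, μ0, d1, d0, ?_, ?_, fun _ h1 h2 f hf => dd h1 h2 f hf⟩
      · intro x hx
        apply s1
        intro hx'
        rw [hYp] at hx
        exact hx ⟨fun h' => absurd h' h, fun _ => hx'⟩
      · intro x hx
        apply s0
        intro hx'
        rw [hNp] at hx
        exact hx ⟨fun h' => absurd h' h, fun _ => hx'⟩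
  choose μ1 μ0 d1 d0 s1 s0 dd using hdist
  have hQ : (0 : ℝ) ≤ (QQ j K T Lam : ℝ) := Nat.cast_nonneg _
  obtain ⟨L, hL1, hL2, hL3, hL4⟩ := exists_LG (rkP n) (levP n) (levP_nodup n) (mem_levP n)
    (levP_length n) n T hQ
  have hc1 : ∀ (b : Prop) (X : ContK (iP k j n)), Cons Yp Np (BP k fin N F j n β C0 b) X →
      (M.Accepts (WP k fin N j n C0 X) n ↔ b) := by
    intro b X hX
    apply hworld b X
    · intro κ hκ
      by_cases hB : BP k fin N F j n β C0 b κ X
      · have := (hX κ).1 hB
        rw [hYp] at this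
        exact this.1 hκ
      · have := (hX κ).2 hB
        rw [hNp] at this
        exact this.1 hκ
    · intro κ hκ
      constructor
      · intro hB
        have := (hX κ).1 hB
        rw [hYp] at this
        exact this.2 hκ
      · intro hB
        have := (hX κ).2 hB
        rw [hNp] at this
        exact this.2 hκ
  have hmain := hyb_mainK (ι := iP k j n) (rk := rkP n) (Yp := Yp) (Np := Np) hYe hNe
    (B1 := BP k fin N F j n β C0 True) (B0 := BP k fin N F j n β C0 False)
    (fun κ X X' h => BP_congr k fin N F j n β C0 True κ X X' h)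
    (fun κ X X' h => BP_congr k fin N F j n β C0 False κ X X' h)
    (μ1 := μ1) (μ0 := μ0) d1 d0 s1 s0
    (g := fun X => b2 (decide (M.Accepts (WP k fin N j n C0 X) n)))
    (n := n) (b := T) (ε := fun κ => (QQ j K T Lam : ℝ) / 4 ^ rkP n κ)
    (by
      intro κ X hκ
      match κ with
      | none => exact absurd hκ (lt_irrefl _)
      | some (false, κ) => exact Iff.rfl
      | some (true, κ) => exact Iff.rfl)
    (by
      intro X X' h
      have h1 := hgX X X' h
      simp only [h1])
    (by
      intro κ hκn hκb X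
      have hup : ∀ y : iP k j n κ → Bool,
          @update PK (fun κ => iP k j n κ → Bool)
            (fun a b => propDecidable (a = b)) X κ y = update X κ y := by
        intro y
        congr 1
        exact Subsingleton.elim _ _
      simp only [hup]
      have key : (∀ κ', κ = some (true, κ') → j < k) →
          |∑ y, μ1 κ y * b2 (decide (M.Accepts (WP k fin N j n C0 (update X κ y)) n)) -
            ∑ z, μ0 κ z * b2 (decide (M.Accepts (WP k fin N j n C0 (update X κ z)) n))| ≤
          (QQ j K T Lam : ℝ) / 4 ^ rkP n κ := by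
        intro h
        refine dd κ hκn hκb h
          (fun y => decide (M.Accepts (WP k fin N j n C0 (update X κ y)) n)) ?_
        exact (hcomp X κ).mono le_rfl (Nat.pow_le_pow_right (by norm_num) hkK)
      by_cases hcase : ∀ κ', κ = some (true, κ') → j < k
      · exact key hcase
      · push Not at hcase
        obtain ⟨κ', rfl, hκ'⟩ := hcase
        have hnf : ¬ fin := fun hf => absurd (hj hf) (not_lt.mpr hκ')
        have hc : ∀ y : iP k j n (some (true, κ')) → Bool,
            WP k fin N j n C0 (update X (some (true, κ')) y) = WP k fin N j n C0 X :=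
          fun y => WP_nofin k fin N hnf j n C0 X κ' y
        have e1 : ∑ y, μ1 (some (true, κ')) y *
            b2 (decide (M.Accepts (WP k fin N j n C0 (update X (some (true, κ')) y)) n)) =
            b2 (decide (M.Accepts (WP k fin N j n C0 X) n)) := by
          simp only [hc]
          rw [← Finset.sum_mul, (d1 (some (true, κ'))).2, one_mul]
        have e0 : ∑ y, μ0 (some (true, κ')) y *
            b2 (decide (M.Accepts (WP k fin N j n C0 (update X (some (true, κ')) y)) n)) =
            b2 (decide (M.Accepts (WP k fin N j n C0 X) n)) := by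
          simp only [hc]
          rw [← Finset.sum_mul, (d0 (some (true, κ'))).2, one_mul]
        rw [e1, e0, sub_self, abs_zero]
        positivity)
    (by
      intro X hX
      have := (hc1 True X hX)
      simp only [iff_true] at this
      simp [this])
    (by
      intro X hX
      have := (hc1 False X hX)
      simp only [iff_false] at this
      simp [this])
    L hL1 hL2 hL3
  have h5 : (1 : ℝ) ≤ 2 * (8 * (QQ j K T Lam : ℝ) / 2 ^ n) := by
    refine hmain.trans ?_
    exact mul_le_mul_of_nonneg_left hL4 (by norm_num)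
  have h7 : (16 : ℝ) * (QQ j K T Lam : ℝ) < 2 ^ n := by
    exact_mod_cast hnum
  have h8 : (0 : ℝ) < 2 ^ n := by positivity
  have h9 : (2 : ℝ) ^ n ≤ 16 * (QQ j K T Lam : ℝ) := by
    have h10 : (1 : ℝ) ≤ (16 * (QQ j K T Lam : ℝ)) / 2 ^ n := by
      calc (1 : ℝ) ≤ 2 * (8 * (QQ j K T Lam : ℝ) / 2 ^ n) := h5
        _ = (16 * (QQ j K T Lam : ℝ)) / 2 ^ n := by ring
    rwa [le_div_iff₀ h8, one_mul] at h10
  linarith

end Pool.Agent.Helper67.EL
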