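import Pool.Agent.Helper67.EL.OStage
import Pool.Agent.Helper67.EL.OImm
import Pool.Agent.Helper67.EL.PReq

set_option autoImplicit false
set_option linter.unusedSectionVars false

/-!
The oracle with all its properties. (EL-16; compare `EQP.exists_world` in `EQP/CStage.lean`.)

Proof. Apply `immune2` with `D n` = (pairs `δ κ` with `κ.length = n`) × (pairs `τ κ` with `κ.length = n`)
× `Bool` × (contents `C j n` for all `j`), `L n d` = the bit is `true`,
`Acc i A n = (M (unpair i).1 (unpair i).2).Accepts (world of A) n`, and, for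
`r = pair j i`, `Rq r A m = ((fin → j < k) → ∃ n, t n ^ c + c ≤ m ∧ (∀ y : FCell j n, (fstr n y).length ≤ m)
∧ ¬ (M j i accepts ↔ Alt ..))` with `c = (M j i).c`.
* `loc`, `hRloc`: `TMachine.accepts_congr` and `BOX_congr`.
* `stage`: as in `EQP.exists_world`: `stage2O` for the sequence
  `i ↦ ⟨(unpair i).1, M (unpair i).1 (unpair i).2⟩`, with `δ0, τ, C` those of `A` (no need to change `τ`
  and `C`), `β0` = that of `A` below `n0` and `false` above, `β1 = update β0 n true`.
* `hR`: `reqP` with `β` = that of `A` below `n0` and `false` above (if `fin → j < k` fails there is nothing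
  to do); take `m` large (`LB.fstr_length`).
-/

namespace Pool.Agent.Helper67.EL

open Finset Function Classical
open Pool.Agent.Helper67.EQP Pool.Agent.Helper67.LB

variable (k : ℕ) (fin : Prop) (N : ℕ → XMachine (k + 1)) (F : ℕ → OFun)

theorem exists_worldO {t : ℕ → ℕ} (ht : VerySlow t) (M : (m : ℕ) → ℕ → TMachine t m) :
    ∃ (δ : (κ : List Bool) → Pair κ) (τ : (κ : List Bool) → TPair k κ) (β : ℕ → Bool)
      (C : FCont), {n | β n = true}.Infinite ∧
      (∀ m i, {n | (M m i).Accepts (BO k fin N (XO k fin N F δ τ β C) τ C) n} ⊆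
          {n | β n = true} →
        {n | (M m i).Accepts (BO k fin N (XO k fin N F δ τ β C) τ C) n}.Finite) ∧
      ∀ j i, (fin → j < k) → ∃ n,
        ¬ ((M j i).Accepts (BO k fin N (XO k fin N F δ τ β C) τ C) n ↔
          Alt (j + 1) true (fun y : FCell j n =>
            BO k fin N (XO k fin N F δ τ β C) τ C (fstr n y) = true)) := by
  let D : ℕ → Type := fun n => ((κ : {κ : List Bool // κ.length = n}) → Pair κ.1) ×
    ((κ : {κ : List Bool // κ.length = n}) → TPair k κ.1) × Bool × ((j : ℕ) → FCell j n → Bool)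
  let fl : ((n : ℕ) → D n) → (κ : List Bool) → Pair κ := fun A κ => (A κ.length).1 ⟨κ, rfl⟩
  let ft : ((n : ℕ) → D n) → (κ : List Bool) → TPair k κ := fun A κ => (A κ.length).2.1 ⟨κ, rfl⟩
  let bt : ((n : ℕ) → D n) → ℕ → Bool := fun A n => (A n).2.2.1
  let fc : ((n : ℕ) → D n) → FCont := fun A j n => (A n).2.2.2 j
  let un : ((κ : List Bool) → Pair κ) → ((κ : List Bool) → TPair k κ) → (ℕ → Bool) → FCont →
      (n : ℕ) → D n := fun δ τ β C n => (fun κ => δ κ.1, fun κ => τ κ.1, β n, fun j => C j n)
  let W : ((n : ℕ) → D n) → List Bool → Bool := fun A =>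
    BO k fin N (XO k fin N F (fl A) (ft A) (bt A) (fc A)) (ft A) (fc A)
  have hW : ∀ (A A' : (n : ℕ) → D n) (l : ℕ), (∀ n' < l, A n' = A' n') →
      ∀ s : List Bool, s.length ≤ l → W A s = W A' s := by
    intro A A' l h s hs
    apply BOX_congr k fin N F (l := l) _ _ _ _ s hs
    · intro κ hκ
      simp only [fl, h κ.length hκ]
    · intro κ hκ
      simp only [ft, h κ.length hκ]
    · intro n hn
      simp only [bt, h n hn]
    · intro j n hn
      simp only [fc, h n hn]
  let P : ℕ → ℕ → ((n : ℕ) → D n) → ℕ → Prop := fun m i A n => (M m i).Accepts (W A) n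
  let R : ℕ → ℕ → ((n : ℕ) → D n) → ℕ → Prop := fun j i A m => (fin → j < k) →
    ∃ n, t n ^ (M j i).c + (M j i).c ≤ m ∧ (∀ y : FCell j n, (fstr n y).length ≤ m) ∧
      ¬ ((M j i).Accepts (W A) n ↔
        Alt (j + 1) true (fun y : FCell j n => W A (fstr n y) = true))
  have hPloc : ∀ m i n, ∃ b, ∀ A A' : (n : ℕ) → D n, (∀ n' < b, A n' = A' n') →
      (P m i A n ↔ P m i A' n) := by
    intro m i n
    refine ⟨t n ^ (M m i).c + (M m i).c, fun A A' h => ?_⟩
    exact (M m i).accepts_congr n (fun s hs => hW A A' _ h s hs)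
  have hRloc : ∀ j i m, ∀ A A' : (n : ℕ) → D n, (∀ n' < m, A n' = A' n') →
      (R j i A m ↔ R j i A' m) := by
    intro j i m A A' h
    refine forall_congr' fun _ => exists_congr fun n => and_congr_right fun h1 =>
      and_congr_right fun h2 => not_congr (iff_congr ?_ ?_)
    · exact (M j i).accepts_congr n (fun s hs => hW A A' _ h s (hs.trans h1))
    · have h3 : (fun y : FCell j n => W A (fstr n y) = true) =
          fun y : FCell j n => W A' (fstr n y) = true := by
        funext y
        rw [hW A A' m h _ (h2 y)]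
      rw [h3]
  have hpos : ∀ κ : List Bool, 0 < par κ := fun κ => by
    have : par κ = 4 * κ.length + 4 := rfl
    omega
  have hdef : ∀ κ, ∃ p : Pair κ, True := fun κ => by
    obtain ⟨y, hy⟩ := exists_yes (hpos κ)
    obtain ⟨z, hz⟩ := exists_no (hpos κ)
    exact ⟨(⟨y, hy⟩, ⟨z, hz⟩), trivial⟩
  choose δd _ using hdef
  have hdefT : ∀ κ, ∃ p : TPair k κ, True := fun κ =>
    ⟨(⟨fun _ => true, TT_const k true⟩, ⟨fun _ => false, TT_const k false⟩), trivial⟩
  choose τd _ using hdefT
  obtain ⟨A, hA1, hA2, hA3⟩ := immune2 (D := D) (fun _ d => d.2.2.1 = true)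
    (fun i A n => P i.unpair.1 i.unpair.2 A n) (fun r A m => R r.unpair.1 r.unpair.2 A m)
    (un δd τd (fun _ => false) (fun _ _ _ => false)) (fun i n => hPloc _ _ n)
    (fun r m A A' h => hRloc _ _ m A A' h) (by
      intro A q kl n0
      obtain ⟨n, hn, hst⟩ := stage2O k fin N F ht
        (fun i => ⟨i.unpair.1, M i.unpair.1 i.unpair.2⟩) q kl n0
      let β0 : ℕ → Bool := fun n' => if n' < n0 then bt A n' else false
      obtain ⟨δ, h1, h2⟩ := hst (fl A) (ft A) (fc A) (update β0 n true) β0 (by
        intro n' hn'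
        rw [update_of_ne (by omega)])
      have hβn : β0 n = false := by
        simp only [β0, if_neg (not_lt.mpr hn)]
      have hagree : ∀ β : ℕ → Bool, (∀ n' < n0, β n' = bt A n') → ∀ n' < n0,
          un δ (ft A) β (fc A) n' = A n' := by
        intro β hβ n' hn'
        refine Prod.ext ?_ (Prod.ext ?_ (Prod.ext (hβ n' hn') rfl))
        · funext κ
          obtain ⟨κ, hκ⟩ := κ
          subst hκ
          exact h1 κ (by omega)
        · funext κ
          obtain ⟨κ, hκ⟩ := κ
          subst hκ
          rfl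
      rcases h2 with h2 | h2
      · refine ⟨n, un δ (ft A) (update β0 n true) (fc A), hn, ?_, ?_, Or.inl ⟨?_, ?_⟩⟩
        · apply hagree
          intro n' hn'
          rw [update_of_ne (by omega)]
          simp only [β0, if_pos hn']
        · intro n' hn' hne
          change ¬ (update β0 n true n' = true)
          rw [update_of_ne hne]
          simp only [β0, if_neg (not_lt.mpr hn')]
          simp
        · change update β0 n true n = true
          rw [update_self]
        · intro i hi hik hacc
          exact h2 ⟨⟨i, hi⟩, hik, hacc⟩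
      · refine ⟨n, un δ (ft A) β0 (fc A), hn, ?_, ?_, Or.inr ⟨?_, ?_⟩⟩
        · apply hagree
          intro n' hn'
          simp only [β0, if_pos hn']
        · intro n' hn' hne
          change ¬ (β0 n' = true)
          simp only [β0, if_neg (not_lt.mpr hn')]
          simp
        · change ¬ (β0 n = true)
          rw [hβn]
          simp
        · obtain ⟨i, hik, hacc⟩ := h2
          exact ⟨i.1, i.2, hik, hacc⟩) (by
      intro A r n0
      let β0 : ℕ → Bool := fun n' => if n' < n0 then bt A n' else false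
      have hβ : ∀ n', n0 ≤ n' → ¬ (β0 n' = true) := by
        intro n' hn'
        simp only [β0, if_neg (not_lt.mpr hn')]
        simp
      by_cases hj : fin → r.unpair.1 < k
      · obtain ⟨n, hn, h⟩ := reqP k fin N F ht r.unpair.1 hj (M r.unpair.1 r.unpair.2) n0
        obtain ⟨δ, τ, C, h1, h2, h3, h4⟩ := h (fl A) (ft A) β0 (fc A)
        refine ⟨t n ^ (M r.unpair.1 r.unpair.2).c + (M r.unpair.1 r.unpair.2).c +
          (2 + (r.unpair.1 + 1) + 1 + n + 1 + (r.unpair.1 + 1) * (4 * (2 * n))),
          un δ τ β0 C, ?_, ?_, ?_⟩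
        · intro n' hn'
          have hβ' : β0 n' = bt A n' := by simp only [β0, if_pos hn']
          refine Prod.ext ?_ (Prod.ext ?_ (Prod.ext hβ' ?_))
          · funext κ
            obtain ⟨κ, hκ⟩ := κ
            subst hκ
            exact h1 κ (by omega)
          · funext κ
            obtain ⟨κ, hκ⟩ := κ
            subst hκ
            exact h2 κ (by omega)
          · funext j
            exact h3 j n' (by omega)
        · exact fun n' hn' => hβ n' hn'
        · intro _
          refine ⟨n, Nat.le_add_right _ _, fun y => ?_, h4⟩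
          rw [LB.fstr_length]
          exact Nat.le_add_left _ _
      · refine ⟨0, un (fl A) (ft A) β0 (fc A), ?_, fun n' hn' => hβ n' hn',
          fun h => absurd h hj⟩
        intro n' hn'
        have hβ' : β0 n' = bt A n' := by simp only [β0, if_pos hn']
        refine Prod.ext ?_ (Prod.ext ?_ (Prod.ext hβ' rfl))
        · funext κ
          obtain ⟨κ, hκ⟩ := κ
          subst hκ
          rfl
        · funext κ
          obtain ⟨κ, hκ⟩ := κ
          subst hκ
          rfl)
  refine ⟨fl A, ft A, bt A, fc A, hA1, ?_, ?_⟩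
  · intro m i
    have h := hA2 (Nat.pair m i)
    rw [Nat.unpair_pair] at h
    exact h
  · intro j i hj
    obtain ⟨m, h⟩ := hA3 (Nat.pair j i)
    rw [Nat.unpair_pair] at h
    obtain ⟨n, _, _, h1⟩ := h hj
    exact ⟨n, h1⟩

end Pool.Agent.Helper67.EL
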