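import Pool.Agent.Helper67.EL.WOrac

set_option autoImplicit false
set_option linter.unusedSectionVars false

/-!
The oracle as a function of the content of one Forrelation block. (EL-04; compare `EQP.BX_comp`,
`size_arith`, `size_depth` in `EQP/CWorld.lean`.)

Strong induction on the length of `s`. For `s = bstr κ' a` the bit is a constant or `y i`
(`BO_bstr`). For `s = fstr n v`: constant (`BO_fstr`). For `s = mstr κ' v`, `κ' = (N i).code i x`,
`fin`: the bit is (`BO_mstr`) one of the functions: constant, `decide ((N i).Accepts (BO ..) x)`, or its
negation (`EQP.Comp.neg`), depending on the two fixed bits `(τ κ').1.1 v`, `(τ κ').2.1 v`. With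
`T = (N i).time x.length` we have `s.length ≥ 2 * T + 3` (`xcode_length`, `mstr_length_gt`), the
strings read by the machine have length at most `T`, so by the induction hypothesis
they satisfy `Comp 1 ((k+3) * T.size) (2 ^ ((2*k+8) * T))`, and `Comp.alts` (with `k + 1`
quantifiers) gives depth `(k+3) * T.size + 2 + (k+1) = (k+3) * (T.size + 1) ≤ (k+3) * s.length.size`
(`EQP.size_depth`) and size
`(1 + 2 ^ T) ^ (k+1) * (1 + 2 ^ T * (1 + T * 2 ^ ((2*k+8) * T))) ≤ 2 ^ ((2*k+8) * s.length)`
(`size_arithO`: the left side is at most
`2 ^ ((T + 1) * (k + 1)) * 2 ^ (T + T + (2*k+8) * T + 2)`). Other strings: the bit is `false`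
(`BO_else`).
-/

namespace Pool.Agent.Helper67.EL

open Finset Function Classical
open Pool.Agent.Helper67.EQP Pool.Agent.Helper67.LB

theorem size_arithO (k T l : ℕ) (h : 2 * T + 3 ≤ l) :
    (1 + 2 ^ T) ^ (k + 1) * (1 + 2 ^ T * (1 + T * 2 ^ ((2 * k + 8) * T))) ≤
      2 ^ ((2 * k + 8) * l) := by
  have h1 : 1 ≤ 2 ^ ((2 * k + 8) * T) := Nat.one_le_two_pow
  have h2 : T + 1 ≤ 2 ^ T := Nat.lt_two_pow_self
  have h3 : 1 + T * 2 ^ ((2 * k + 8) * T) ≤ 2 ^ T * 2 ^ ((2 * k + 8) * T) := by nlinarith
  have h4 : 2 ^ T * (1 + T * 2 ^ ((2 * k + 8) * T)) ≤
      2 ^ T * (2 ^ T * 2 ^ ((2 * k + 8) * T)) := Nat.mul_le_mul_left _ h3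
  have h5 : 2 ^ T * (2 ^ T * 2 ^ ((2 * k + 8) * T)) = 2 ^ (T + T + (2 * k + 8) * T) := by
    rw [← mul_assoc, ← pow_add, ← pow_add]
  have h6 : 1 ≤ 2 ^ (T + T + (2 * k + 8) * T) := Nat.one_le_two_pow
  have h7 : 1 + 2 ^ T * (1 + T * 2 ^ ((2 * k + 8) * T)) ≤ 2 ^ (T + T + (2 * k + 8) * T + 1) := by
    have h8 : 2 ^ (T + T + (2 * k + 8) * T + 1) = 2 ^ (T + T + (2 * k + 8) * T) +
        2 ^ (T + T + (2 * k + 8) * T) := by ring
    omega
  have h9 : 1 + 2 ^ T ≤ 2 ^ (T + 1) := by
    have h10 : 2 ^ (T + 1) = 2 ^ T + 2 ^ T := by ring
    have h11 : 1 ≤ 2 ^ T := Nat.one_le_two_pow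
    omega
  have h12 : (1 + 2 ^ T) ^ (k + 1) ≤ 2 ^ ((T + 1) * (k + 1)) := by
    rw [pow_mul]
    exact Nat.pow_le_pow_left h9 _
  calc (1 + 2 ^ T) ^ (k + 1) * (1 + 2 ^ T * (1 + T * 2 ^ ((2 * k + 8) * T)))
      ≤ 2 ^ ((T + 1) * (k + 1)) * 2 ^ (T + T + (2 * k + 8) * T + 1) := Nat.mul_le_mul h12 h7
    _ = 2 ^ ((T + 1) * (k + 1) + (T + T + (2 * k + 8) * T + 1)) := by rw [← pow_add]
    _ ≤ 2 ^ ((2 * k + 8) * l) := by
      apply Nat.pow_le_pow_right (by norm_num)
      calc (T + 1) * (k + 1) + (T + T + (2 * k + 8) * T + 1)
          ≤ (2 * k + 8) * (2 * T + 3) := by nlinarith [Nat.zero_le (k * T)]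
        _ ≤ (2 * k + 8) * l := Nat.mul_le_mul_left _ h

variable (k : ℕ) (fin : Prop) (N : ℕ → XMachine (k + 1))

theorem BO_comp (X : Cont) (τ : (κ : List Bool) → TPair k κ) (C : FCont) (κ : List Bool)
    (s : List Bool) :
    Comp 1 ((k + 3) * s.length.size) (2 ^ ((2 * k + 8) * s.length))
      (fun y : Idx (par κ) → Bool => BO k fin N (update X κ y) τ C s) := by
  have key : ∀ n, ∀ s : List Bool, s.length = n →
      Comp 1 ((k + 3) * s.length.size) (2 ^ ((2 * k + 8) * s.length))
      (fun y : Idx (par κ) → Bool => BO k fin N (update X κ y) τ C s) := by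
    intro n
    induction n using Nat.strong_induction_on with
    | _ n ih =>
      intro s hs
      by_cases h1 : ∃ (κ' : List Bool) (a : B0 (par κ') × Bool), s = bstr κ' a
      · obtain ⟨κ', a, h1⟩ := h1
        apply Comp.of_dtd
        have h2 : (fun y : Idx (par κ) → Bool => BO k fin N (update X κ y) τ C s) = fun y =>
            decide (∃ i, posn (par κ') a = some i ∧ update X κ y κ' i = true) := by
          funext y
          rw [Bool.eq_iff_iff, h1, BO_bstr, decide_eq_true_eq]
        rw [h2]
        by_cases hκ : κ' = κ
        · subst hκ
          simp only [update_self]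
          rcases hp : posn (par κ') a with _ | i
          · have : (fun y : Idx (par κ') → Bool => decide (∃ i, (none : Option (Idx (par κ'))) =
                some i ∧ y i = true)) = fun _ => false := by
              funext y
              simp
            rw [this]
            exact DTd.const 1 _
          · have : (fun y : Idx (par κ') → Bool => decide (∃ i', some i =
                some i' ∧ y i' = true)) = fun y => y i := by
              funext y
              simp
            rw [this]
            exact DTd.lit i
        · simp only [update_of_ne hκ]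
          exact DTd.const 1 _
      · by_cases h2 : fin ∧ ∃ (i : ℕ) (x : List Bool) (v : TCell k ((N i).code i x)),
            s = mstr ((N i).code i x) v
        · obtain ⟨hfin, i, x, v, h2⟩ := h2
          have hlen : 2 * (N i).time x.length + 3 ≤ s.length := by
            have e1 := mstr_length_gt v
            rw [← h2, xcode_length] at e1
            omega
          set T := (N i).time x.length with hT
          have h4 := Comp.alts (ι := Idx (par κ)) (w := 1) (h := (k + 3) * T.size)
            (s := 2 ^ ((2 * k + 8) * T)) (k + 1)
            (fun s' : List Bool => s'.length ≤ T) (fun w => (N i).tree x w)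
            (fun w => (N i).depth_le x w) (fun w => (N i).short x w)
            (fun y => BO k fin N (update X κ y) τ C) (by
              intro s' hs'
              have h5 := ih s'.length (by omega) s' rfl
              apply h5.mono
              · exact Nat.mul_le_mul_left _ (Nat.size_le_size hs')
              · exact Nat.pow_le_pow_right (by norm_num) (Nat.mul_le_mul_left _ hs'))
          rw [Fintype.card_fun, Fintype.card_bool, Fintype.card_fin] at h4
          have h6 : Comp 1 ((k + 3) * s.length.size) (2 ^ ((2 * k + 8) * s.length))
              (fun y : Idx (par κ) → Bool =>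
                decide ((N i).Accepts (BO k fin N (update X κ y) τ C) x)) := by
            apply h4.mono
            · have e1 := size_depth T s.length (by omega)
              calc (k + 3) * T.size + 2 + (k + 1) = (k + 3) * (T.size + 1) := by ring
                _ ≤ (k + 3) * s.length.size := Nat.mul_le_mul_left _ e1
            · exact size_arithO k T s.length (by omega)
          rcases hb1 : (τ ((N i).code i x)).1.1 v with _ | _ <;>
            rcases hb2 : (τ ((N i).code i x)).2.1 v with _ | _
          · have h7 : (fun y : Idx (par κ) → Bool => BO k fin N (update X κ y) τ C s) =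
                fun _ => false := by
              funext y
              rw [h2, BO_mstr k fin N hfin, hb1, hb2, ite_self]
            rw [h7]
            exact Comp.of_dtd (DTd.const 1 _) _ _
          · have h7 : (fun y : Idx (par κ) → Bool => BO k fin N (update X κ y) τ C s) =
                fun y => !decide ((N i).Accepts (BO k fin N (update X κ y) τ C) x) := by
              funext y
              rw [h2, BO_mstr k fin N hfin, hb1, hb2]
              by_cases hacc : (N i).Accepts (BO k fin N (update X κ y) τ C) x
              · rw [if_pos hacc, decide_eq_true hacc]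
                rfl
              · rw [if_neg hacc, decide_eq_false hacc]
                rfl
            rw [h7]
            exact h6.neg
          · have h7 : (fun y : Idx (par κ) → Bool => BO k fin N (update X κ y) τ C s) =
                fun y => decide ((N i).Accepts (BO k fin N (update X κ y) τ C) x) := by
              funext y
              rw [h2, BO_mstr k fin N hfin, hb1, hb2]
              by_cases hacc : (N i).Accepts (BO k fin N (update X κ y) τ C) x
              · rw [if_pos hacc, decide_eq_true hacc]
              · rw [if_neg hacc, decide_eq_false hacc]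
            rw [h7]
            exact h6
          · have h7 : (fun y : Idx (par κ) → Bool => BO k fin N (update X κ y) τ C s) =
                fun _ => true := by
              funext y
              rw [h2, BO_mstr k fin N hfin, hb1, hb2, ite_self]
            rw [h7]
            exact Comp.of_dtd (DTd.const 1 _) _ _
        · by_cases h3 : ∃ (j n : ℕ) (v : FCell j n), s = fstr n v
          · obtain ⟨j, n, v, h3⟩ := h3
            have h7 : (fun y : Idx (par κ) → Bool => BO k fin N (update X κ y) τ C s) =
                fun _ => C j n v := by
              funext y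
              rw [h3, BO_fstr]
            rw [h7]
            exact Comp.of_dtd (DTd.const 1 _) _ _
          · have h7 : (fun y : Idx (par κ) → Bool => BO k fin N (update X κ y) τ C s) =
                fun _ => false := by
              funext y
              apply BO_else
              · intro κ' a h4
                exact h1 ⟨κ', a, h4⟩
              · intro hfin i x v h4
                exact h2 ⟨hfin, i, x, v, h4⟩
              · intro j n v h4
                exact h3 ⟨j, n, v, h4⟩
            rw [h7]
            exact Comp.of_dtd (DTd.const 1 _) _ _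
  exact key s.length s rfl

end Pool.Agent.Helper67.EL
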