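import Pool.Agent.Helper67.EL.WHyb
import Pool.Agent.Helper67.EL.WComp
import Pool.Agent.Helper67.EL.ONum

set_option autoImplicit false
set_option linter.unusedSectionVars false

/-!
One stage of the construction of the immune language. (EL-08; compare `EQP.SomeAcc`,
`someAcc_comp`, `someAcc_congr`, `stage2` in `EQP/CStage.lean`.)

`M i` is a pair of a level and a machine of that level; let `c`, `d` bound the constants and the levels of
the first `q` machines, `T = (t n) ^ c + c`.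
* `someAcc_compO`: each machine `M i` of level `m ≤ d` gives by `BO_comp` and `Comp.alts`
  a function in `Comp 1 ((k+3) * T.size + 2 + m) ((1 + 2 ^ T) ^ m * (1 + 2 ^ T * (1 + T * 2 ^ ((2*k+8)*T))))`,
  contained in `Comp 1 ((k+3) * T.size + d + 3) (2 ^ ((2*k+8+d+4) * T + d + 3))` (its own time is
  `(t n) ^ (M i).2.c + (M i).2.c ≤ T`, `EQP.bound_mono`); a machine in `kl` gives the constant
  `false`. Then one more OR gate with `q` inputs (`EQP.Comp.gate`).
* `someAcc_congrO`: `TMachine.accepts_congr`, `BO_congr`.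
* `stage2O`: `n = max n1 n0` with `n1` from `growthO`. Suppose the contrary: for all `δ` with the given
  beginning some machine accepts relative to the world `β1`, and none relative to the world `β0`.
  Apply `hybO_main` with `g X = b2 (decide (SomeAccO .. X))`, `b = T`, the distributions of
  `EQP.avg_comp ((k+3) * T.size + d + 4) (par κ) K 1`, `K = (2*k+8+d+4) * T + q + d + 4`, and
  `Q = 160 * (32 * (K + 20 * T + 20)) ^ ((k+3) * T.size + d + 5)`. (As in `EQP.stage2`.)
-/

namespace Pool.Agent.Helper67.EL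

open Finset Function Classical
open Pool.Agent.Helper67.EQP Pool.Agent.Helper67.LB

variable (k : ℕ) (fin : Prop) (N : ℕ → XMachine (k + 1)) (F : ℕ → OFun)

/-- Some of the first `q` machines accepts. -/
def SomeAccO {t : ℕ → ℕ} (M : ℕ → (m : ℕ) × TMachine t m) (q : ℕ) (kl : Finset ℕ) (n : ℕ)
    (τ : (κ : List Bool) → TPair k κ) (C : FCont) (X : Cont) : Prop :=
  ∃ i : Fin q, i.1 ∉ kl ∧ (M i.1).2.Accepts (BO k fin N X τ C) n

theorem someAcc_compO {t : ℕ → ℕ} (M : ℕ → (m : ℕ) × TMachine t m) (q : ℕ) (kl : Finset ℕ)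
    (n c d : ℕ) (hc : ∀ i < q, (M i).2.c ≤ c) (hd : ∀ i < q, (M i).1 ≤ d)
    (τ : (κ : List Bool) → TPair k κ) (C : FCont) (X : Cont) (κ : List Bool) :
    Comp 1 ((k + 3) * (t n ^ c + c).size + d + 4)
      (2 ^ ((2 * k + 8 + d + 4) * (t n ^ c + c) + q + d + 4))
      (fun y : Idx (par κ) → Bool =>
        decide (SomeAccO k fin N M q kl n τ C (update X κ y))) := by
  set T := t n ^ c + c with hT
  have hpow : ∀ a b : ℕ, a ≤ b → 2 ^ a ≤ 2 ^ b := fun a b h => Nat.pow_le_pow_right (by norm_num) h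
  have h1 : ∀ i : Fin q, Comp 1 ((k + 3) * T.size + d + 3)
      (2 ^ ((2 * k + 8 + d + 4) * T + d + 3))
      (fun y : Idx (par κ) → Bool =>
        decide (i.1 ∉ kl ∧ (M i.1).2.Accepts (BO k fin N (update X κ y) τ C) n)) := by
    intro i
    by_cases hi : i.1 ∈ kl
    · have : (fun y : Idx (par κ) → Bool =>
        decide (i.1 ∉ kl ∧ (M i.1).2.Accepts (BO k fin N (update X κ y) τ C) n)) =
          fun _ => false := by
        funext y
        simp [hi]
      rw [this]
      exact Comp.of_dtd (DTd.const _ _) _ _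
    · have : (fun y : Idx (par κ) → Bool =>
        decide (i.1 ∉ kl ∧ (M i.1).2.Accepts (BO k fin N (update X κ y) τ C) n)) =
          fun y => decide (Alt (M i.1).1 true (fun z =>
            ((M i.1).2.tree n z).eval (BO k fin N (update X κ y) τ C) = true)) := by
        funext y
        simp only [hi, not_false_eq_true, true_and]
        rfl
      rw [this]
      have hT' : t n ^ (M i.1).2.c + (M i.1).2.c ≤ T := bound_mono (t n) (hc i.1 i.2)
      have hm : (M i.1).1 ≤ d := hd i.1 i.2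
      have h2 := Comp.alts (ι := Idx (par κ)) (w := 1) (h := (k + 3) * T.size)
        (s := 2 ^ ((2 * k + 8) * T)) (d := T) (M i.1).1 (fun s : List Bool => s.length ≤ T)
        ((M i.1).2.tree n) (fun z => ((M i.1).2.depth_le n z).trans hT')
        (fun z => ((M i.1).2.short n z).mono (fun s hs => hs.trans hT'))
        (fun y => BO k fin N (update X κ y) τ C) (by
          intro s hs
          apply (BO_comp k fin N X τ C κ s).mono
          · exact Nat.mul_le_mul_left _ (Nat.size_le_size hs)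
          · exact hpow _ _ (Nat.mul_le_mul_left _ hs))
      have hcard : Fintype.card (Fin (t n ^ (M i.1).2.c + (M i.1).2.c) → Bool) =
          2 ^ (t n ^ (M i.1).2.c + (M i.1).2.c) := by
        rw [Fintype.card_fun, Fintype.card_bool, Fintype.card_fin]
      rw [hcard] at h2
      refine h2.mono (by omega) ?_
      have a0 : 1 + 2 ^ (t n ^ (M i.1).2.c + (M i.1).2.c) ≤ 2 ^ (T + 1) := by
        have b1 := hpow _ _ hT'
        have b2 : 1 ≤ 2 ^ T := Nat.one_le_two_pow
        have b3 : 2 ^ (T + 1) = 2 * 2 ^ T := pow_succ' 2 T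
        omega
      have a1 : (1 + 2 ^ (t n ^ (M i.1).2.c + (M i.1).2.c)) ^ (M i.1).1 ≤ 2 ^ ((T + 1) * d) := by
        calc (1 + 2 ^ (t n ^ (M i.1).2.c + (M i.1).2.c)) ^ (M i.1).1
            ≤ (2 ^ (T + 1)) ^ (M i.1).1 := Nat.pow_le_pow_left a0 _
          _ = 2 ^ ((T + 1) * (M i.1).1) := (pow_mul _ _ _).symm
          _ ≤ 2 ^ ((T + 1) * d) := hpow _ _ (Nat.mul_le_mul_left _ hm)
      have a2 : 1 + 2 ^ T * (1 + T * 2 ^ ((2 * k + 8) * T)) ≤ 2 ^ ((2 * k + 10) * T + 1) := by
        have b1 : 1 ≤ 2 ^ ((2 * k + 8) * T) := Nat.one_le_two_pow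
        have b2 : T + 1 ≤ 2 ^ T := Nat.lt_two_pow_self
        have b3 : 1 + T * 2 ^ ((2 * k + 8) * T) ≤ 2 ^ T * 2 ^ ((2 * k + 8) * T) := by nlinarith
        calc 1 + 2 ^ T * (1 + T * 2 ^ ((2 * k + 8) * T)) ≤
              1 + 2 ^ T * (2 ^ T * 2 ^ ((2 * k + 8) * T)) := by
              have := Nat.mul_le_mul_left (2 ^ T) b3
              omega
          _ = 1 + 2 ^ ((2 * k + 10) * T) := by
              rw [← pow_add, ← pow_add]
              congr 2
              ring
          _ ≤ 2 ^ ((2 * k + 10) * T) + 2 ^ ((2 * k + 10) * T) := by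
              have : 1 ≤ 2 ^ ((2 * k + 10) * T) := Nat.one_le_two_pow
              omega
          _ = 2 ^ ((2 * k + 10) * T + 1) := by ring
      calc (1 + 2 ^ (t n ^ (M i.1).2.c + (M i.1).2.c)) ^ (M i.1).1 *
            (1 + 2 ^ T * (1 + T * 2 ^ ((2 * k + 8) * T)))
          ≤ 2 ^ ((T + 1) * d) * 2 ^ ((2 * k + 10) * T + 1) := Nat.mul_le_mul a1 a2
        _ = 2 ^ ((T + 1) * d + ((2 * k + 10) * T + 1)) := (pow_add _ _ _).symm
        _ ≤ 2 ^ ((2 * k + 8 + d + 4) * T + d + 3) := by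
            refine hpow _ _ ?_
            nlinarith
  have h3 := Comp.gate h1 (F := fun y : Idx (par κ) → Bool =>
    decide (SomeAccO k fin N M q kl n τ C (update X κ y)))
    (Or.inr (fun y => by simp [SomeAccO]))
  rw [Fintype.card_fin] at h3
  apply h3.mono le_rfl
  have a1 : 1 ≤ 2 ^ ((2 * k + 8 + d + 4) * T + d + 3) := Nat.one_le_two_pow
  have a2 : q + 1 ≤ 2 ^ q := Nat.lt_two_pow_self
  calc 1 + q * 2 ^ ((2 * k + 8 + d + 4) * T + d + 3) ≤
        (q + 1) * 2 ^ ((2 * k + 8 + d + 4) * T + d + 3) := by nlinarith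
    _ ≤ 2 ^ q * 2 ^ ((2 * k + 8 + d + 4) * T + d + 3) := Nat.mul_le_mul_right _ a2
    _ = 2 ^ (q + ((2 * k + 8 + d + 4) * T + d + 3)) := (pow_add _ _ _).symm
    _ ≤ 2 ^ ((2 * k + 8 + d + 4) * T + q + d + 4) := hpow _ _ (by omega)

theorem someAcc_congrO {t : ℕ → ℕ} (M : ℕ → (m : ℕ) × TMachine t m) (q : ℕ) (kl : Finset ℕ)
    (n c : ℕ) (hc : ∀ i < q, (M i).2.c ≤ c) (τ : (κ : List Bool) → TPair k κ) (C : FCont)
    {X X' : Cont} (h : ∀ κ, κ.length ≤ t n ^ c + c → X κ = X' κ) :
    SomeAccO k fin N M q kl n τ C X ↔ SomeAccO k fin N M q kl n τ C X' := by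
  unfold SomeAccO
  apply exists_congr
  intro i
  apply and_congr_right
  intro _
  apply TMachine.accepts_congr
  intro s hs
  have hT' : t n ^ (M i.1).2.c + (M i.1).2.c ≤ t n ^ c + c := bound_mono (t n) (hc i.1 i.2)
  refine BO_congr k fin N (l := t n ^ c + c) ?_ (fun _ _ => rfl) (fun _ _ _ => rfl) s
    (hs.trans hT')
  intro κ hκ
  exact h κ (by omega)

/-- One stage of the construction. -/
theorem stage2O {t : ℕ → ℕ} (ht : VerySlow t) (M : ℕ → (m : ℕ) × TMachine t m) (q : ℕ)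
    (kl : Finset ℕ) (n0 : ℕ) : ∃ n, n0 ≤ n ∧ ∀ (δ0 : (κ : List Bool) → Pair κ)
      (τ : (κ : List Bool) → TPair k κ) (C : FCont) (β1 β0 : ℕ → Bool),
      (∀ n' < n, β1 n' = β0 n') →
      ∃ δ : (κ : List Bool) → Pair κ, (∀ κ, κ.length < n → δ κ = δ0 κ) ∧
        (¬ SomeAccO k fin N M q kl n τ C (XO k fin N F δ τ β1 C) ∨
          SomeAccO k fin N M q kl n τ C (XO k fin N F δ τ β0 C)) := by
  set c := (range q).sup (fun i => (M i).2.c) with hc
  have hcq : ∀ i < q, (M i).2.c ≤ c := fun i hi =>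
    Finset.le_sup (f := fun i => (M i).2.c) (mem_range.mpr hi)
  set d := (range q).sup (fun i => (M i).1) with hd
  have hdq : ∀ i < q, (M i).1 ≤ d := fun i hi =>
    Finset.le_sup (f := fun i => (M i).1) (mem_range.mpr hi)
  obtain ⟨n1, hn1⟩ := growthO ht k c d q
  set n := max n1 n0 with hn
  refine ⟨n, le_max_right _ _, ?_⟩
  have hlt := hn1 n (le_max_left _ _)
  intro δ0 τ C β1 β0 hβ
  by_contra hcon
  push Not at hcon
  set T := t n ^ c + c with hT
  set K := (2 * k + 8 + d + 4) * T + q + d + 4 with hK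
  have hexist : ∀ κ : List Bool, ∃ μ1 μ0 : (Idx (par κ) → Bool) → ℝ, IsDist μ1 ∧ IsDist μ0 ∧
      (∀ x, ¬ Yes (par κ) x → μ1 x = 0) ∧ (∀ x, ¬ No (par κ) x → μ0 x = 0) ∧
      ∀ f : (Idx (par κ) → Bool) → Bool, Comp 1 ((k + 3) * T.size + d + 4) (2 ^ K) f →
        |∑ x, μ1 x * b2 (f x) - ∑ x, μ0 x * b2 (f x)| ≤
          160 * (32 * (K + 5 * par κ)) ^ ((k + 3) * T.size + d + 4 + 1) /
            Real.sqrt (2 ^ par κ) :=
    fun κ => avg_comp ((k + 3) * T.size + d + 4) (par κ) K 1 (Nat.succ_pos _)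
      (Nat.succ_pos _)
      (by have : par κ = 4 * κ.length + 4 := rfl
          omega)
  choose μ1 μ0 h1 h0 hs1 hs0 hbd using hexist
  set Q : ℝ := 160 * (32 * ((K : ℝ) + 20 * T + 20)) ^ ((k + 3) * T.size + d + 5) with hQ
  have hQ0 : 0 ≤ Q := by positivity
  have hQn : 4 * Q < 2 ^ n := by
    have : (4 * (160 * (32 * (K + 20 * T + 20)) ^ ((k + 3) * T.size + d + 5)) : ℕ) < 2 ^ n :=
      hlt
    rw [hQ]
    exact_mod_cast this
  apply hybO_main k fin N F h1 h0 hs1 hs0
    (g := fun X => b2 (decide (SomeAccO k fin N M q kl n τ C X)))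
    (n := n) (b := T) hQ0 hQn _ _ δ0 τ β1 β0 C hβ
  · intro δ hδ
    have := (hcon δ hδ).1
    rw [decide_eq_true this]
    rfl
  · intro δ hδ
    have := (hcon δ hδ).2
    rw [decide_eq_false this]
    rfl
  · intro X X' h
    have := someAcc_congrO k fin N M q kl n c hcq τ C h
    simp only [this]
  · intro κ hκ X
    refine (hbd κ _ (someAcc_compO k fin N M q kl n c d hcq hdq τ C X κ)).trans ?_
    have e1 : Real.sqrt (2 ^ par κ) = 4 * 4 ^ κ.length := by
      rw [Real.sqrt_eq_iff_mul_self_eq (by positivity) (by positivity)]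
      have : (4 : ℝ) ^ κ.length = 2 ^ (2 * κ.length) := by
        rw [pow_mul]; norm_num
      rw [this]
      rw [show par κ = 4 * κ.length + 4 from rfl]
      ring
    rw [e1]
    have e2 : (160 * (32 * ((K : ℝ) + 5 * (par κ : ℕ))) ^ ((k + 3) * T.size + d + 4 + 1) : ℝ) ≤
        Q := by
      rw [hQ]
      have h5 : ((κ.length : ℕ) : ℝ) ≤ T := by exact_mod_cast hκ
      have h6 : (32 * ((K : ℝ) + 5 * (par κ : ℕ)) : ℝ) ≤ 32 * ((K : ℝ) + 20 * T + 20) := by
        have : ((par κ : ℕ) : ℝ) = 4 * κ.length + 4 := by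
          rw [show par κ = 4 * κ.length + 4 from rfl]
          push_cast
          ring
        rw [this]
        linarith
      have h7 : (0 : ℝ) ≤ 32 * ((K : ℝ) + 5 * (par κ : ℕ)) := by positivity
      have h8 := pow_le_pow_left₀ h7 h6 ((k + 3) * T.size + d + 5)
      linarith
    have h4 : (0 : ℝ) < 4 ^ κ.length := by positivity
    calc (160 * (32 * ((K : ℝ) + 5 * (par κ : ℕ))) ^ ((k + 3) * T.size + d + 4 + 1) : ℝ) /
          (4 * 4 ^ κ.length) ≤ Q / (4 * 4 ^ κ.length) := by gcongr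
      _ ≤ Q / 4 ^ κ.length := by
          apply div_le_div_of_nonneg_left hQ0 h4
          linarith

end Pool.Agent.Helper67.EL
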