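import Pool.Agent.Helper67.EL.PVal
import Pool.Agent.Helper67.EL.OComp

set_option autoImplicit false
set_option linter.unusedSectionVars false

/-!
The oracle and the machine as functions of the content of one key. (EL-13.)

* `WP_dtd`: for a string `s = bstr κ' a` the bit is
  `decide (∃ i, posn (par κ') a = some i ∧ update X κ y (some (false, κ')) i = true)`: a constant if
  `κ ≠ some (false, κ')`, otherwise a constant or `y i`. Similarly for `mstr` and `fstr`. Other strings:
  constant `false`.
* `WP_mcomp`: `tmachine_comp` with `D = 1`; `(1 + 2 ^ T) ^ j ≤ 2 ^ ((T + 1) * j)`, `EQP.Comp.mono`.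
-/

namespace Pool.Agent.Helper67.EL

open Finset Function Classical
open Pool.Agent.Helper67.EQP Pool.Agent.Helper67.LB

variable (k : ℕ) (fin : Prop) (N : ℕ → XMachine (k + 1))

private theorem pcomp_upd (j n : ℕ) (X : ContK (iP k j n)) (κ κ' : PK) (i : iP k j n κ') :
    DTd 1 (fun y : iP k j n κ → Bool => update X κ y κ' i) := by
  by_cases h : κ' = κ
  · subst h
    have e : (fun y : iP k j n κ' → Bool => update X κ' y κ' i) = fun y => y i := by
      funext y
      rw [update_self]
    rw [e]
    exact DTd.lit i
  · have e : (fun y : iP k j n κ → Bool => update X κ y κ' i) = fun _ => X κ' i := by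
      funext y
      rw [update_of_ne h]
    rw [e]
    exact DTd.const 1 _

theorem WP_dtd (j n : ℕ) (C0 : FCont) (X : ContK (iP k j n)) (κ : PK) (s : List Bool) :
    DTd 1 (fun y : iP k j n κ → Bool => WP k fin N j n C0 (update X κ y) s) := by
  by_cases h1 : ∃ (κ' : List Bool) (a : B0 (par κ') × Bool), s = bstr κ' a
  · obtain ⟨κ', a, rfl⟩ := h1
    have e : (fun y : iP k j n κ → Bool => WP k fin N j n C0 (update X κ y) (bstr κ' a)) =
        fun y => decide (∃ i : Idx (par κ'), posn (par κ') a = some i ∧
          update X κ y (some (false, κ')) i = true) := by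
      funext y
      refine (WP_bstr k fin N j n C0 (update X κ y) κ' a).trans ?_
      congr
    rw [e]
    rcases hp : posn (par κ') a with _ | i
    · have e2 : (fun y : iP k j n κ → Bool =>
          decide (∃ i : Idx (par κ'), (none : Option (Idx (par κ'))) = some i ∧
          update X κ y (some (false, κ')) i = true)) = fun _ => false := by
        funext y
        simp
      rw [e2]
      exact DTd.const 1 _
    · have e2 : (fun y : iP k j n κ → Bool => decide (∃ i' : Idx (par κ'), some i = some i' ∧
          update X κ y (some (false, κ')) i' = true)) =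
          fun y => update X κ y (some (false, κ')) i := by
        funext y
        rw [Bool.eq_iff_iff, decide_eq_true_iff]
        constructor
        · rintro ⟨i', h, h'⟩
          rw [Option.some.injEq] at h
          subst h
          exact h'
        · intro h
          exact ⟨i, rfl, h⟩
      rw [e2]
      exact pcomp_upd k j n X κ (some (false, κ')) i
  by_cases h2 : ∃ (_ : fin) (i : ℕ) (x : List Bool) (y : TCell k ((N i).code i x)),
      s = mstr ((N i).code i x) y
  · obtain ⟨hf, i, x, y', rfl⟩ := h2
    have e : (fun y : iP k j n κ → Bool =>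
        WP k fin N j n C0 (update X κ y) (mstr ((N i).code i x) y')) =
        fun y => update X κ y (some (true, (N i).code i x)) y' := by
      funext y
      exact WP_mstr k fin N hf j n C0 (update X κ y) i x y'
    rw [e]
    exact pcomp_upd k j n X κ (some (true, (N i).code i x)) y'
  by_cases h3 : ∃ (j' n' : ℕ) (y : FCell j' n'), s = fstr n' y
  · obtain ⟨j', n', y', rfl⟩ := h3
    by_cases h : (j', n') = (j, n)
    · obtain ⟨rfl, rfl⟩ := Prod.mk.inj h
      have e : (fun y : iP k j' n' κ → Bool =>
          WP k fin N j' n' C0 (update X κ y) (fstr n' y')) = fun y => update X κ y none y' := by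
        funext y
        exact WP_target k fin N j' n' C0 (update X κ y) y'
      rw [e]
      exact pcomp_upd k j' n' X κ none y'
    · have e : (fun y : iP k j n κ → Bool =>
          WP k fin N j n C0 (update X κ y) (fstr n' y')) = fun _ => C0 j' n' y' := by
        funext y
        exact WP_other k fin N j n C0 (update X κ y) h y'
      rw [e]
      exact DTd.const 1 _
  · have e : (fun y : iP k j n κ → Bool => WP k fin N j n C0 (update X κ y) s) =
        fun _ => false := by
      funext y
      refine WP_else k fin N j n C0 (update X κ y) ?_ ?_ ?_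
      · intro κ' a hs
        exact h1 ⟨κ', a, hs⟩
      · intro hf i x y' hs
        exact h2 ⟨hf, i, x, y', hs⟩
      · intro j' n' y' hs
        exact h3 ⟨j', n', y', hs⟩
    rw [e]
    exact DTd.const 1 _

theorem WP_mcomp {t : ℕ → ℕ} (j n : ℕ) (C0 : FCont) (X : ContK (iP k j n)) (κ : PK)
    (M : TMachine t j) :
    Comp (t n ^ M.c + M.c) j (2 ^ ((t n ^ M.c + M.c + 1) * j))
      (fun y : iP k j n κ → Bool =>
        decide (M.Accepts (WP k fin N j n C0 (update X κ y)) n)) := by
  have h := tmachine_comp M n 1
    (fun y : iP k j n κ → Bool => WP k fin N j n C0 (update X κ y))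
    (fun s _ => WP_dtd k fin N j n C0 X κ s)
  rw [mul_one] at h
  refine h.mono le_rfl ?_
  rw [pow_mul]
  refine Nat.pow_le_pow_left ?_ j
  rw [pow_succ]
  have := Nat.one_le_two_pow (n := t n ^ M.c + M.c)
  omega

end Pool.Agent.Helper67.EL
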