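import Pool.Agent.Helper67.EL.PVal
import Pool.Agent.Helper67.LB.TAlt

set_option autoImplicit false
set_option linter.unusedSectionVars false

/-!
Consistent contents are given by data. (EL-12.)

`Xb` are the contents of the world with the data `δ0, τ0, β, C0`. Let `X` be as in `cons_data`, let
`B = WP k fin N j n C0 X`, `X' κ = X (some (false, κ))`. Define
* `δ κ = δ0 κ` if `κ.length < n`; otherwise, if `BP .. (some (false, κ)) X` holds, the pair
  (`X' κ`, a no-instance), and if not, the pair (a yes-instance, `X' κ`) (`EQP.exists_yes`,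
  `EQP.exists_no`, `0 < par κ`);
* `τ κ = τ0 κ` if `κ.length < n`; otherwise, if `BP .. (some (true, κ)) X` holds, the pair
  (`X (some (true, κ))`, constantly `false`), and if not, the pair (constantly `true`,
  `X (some (true, κ))`) (`LB.TT_const`);
* `C j' n' = C0 j' n'` except `C j n = X none` (decide equality of `j'` with `j` and `n'` with `n` one after the other
  and `subst`).
Then `BO k fin N X' τ C s = B s` for all `s`, by strong induction on the length of `s` (compare `BO_spec` / the
values `BO_bstr`, `BO_mstr`, `BO_fstr`, `BO_else` with the values of `WP`). For `s = mstr κ y`,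
`κ = (N i).code i x`: the two oracles agree on the strings shorter than `s`, so
`(N i).Accepts (BO ..) x ↔ (N i).Accepts B x`, which for `n ≤ κ.length` is equivalent to
`BP .. (some (true, κ)) X` (the pair `i, x` is determined by `κ`, `xcode_inj`), and the claim follows by
the choice of `τ κ`. For `κ.length < n` we have `X (some (true, κ)) = Xb (some (true, κ))`, which is
the component of `τ0 κ` given by `(N i).Accepts B0 x` with the base world `B0`; and `B0` agrees with `B` on
the strings of length at most `κ.length`: they are given by the contents of rank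
`< n` (`WP_congr` and `WP_base`). Finally `X'` satisfies the equation defining `XO k fin N F δ τ β C`
(for `κ.length < n` both are equal to the base contents; `BitO` and `BP` agree since
`BO k fin N X' τ C = B`), so `X' = XO ..` by `XO_unique`.
`WP_base`: the world of the base contents (with any content of the target) agrees with `B0` at
the strings of length at most `n`: cases, the values of both are known.
-/

namespace Pool.Agent.Helper67.EL

open Finset Function Classical
open Pool.Agent.Helper67.EQP Pool.Agent.Helper67.LB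

variable (k : ℕ) (fin : Prop) (N : ℕ → XMachine (k + 1)) (F : ℕ → OFun)

private theorem kinds_pc (s : List Bool) :
    (∃ κ, ∃ a : B0 (par κ) × Bool, s = bstr κ a) ∨
    (fin ∧ ∃ i x, ∃ y : TCell k ((N i).code i x), s = mstr ((N i).code i x) y) ∨
    (∃ j' n', ∃ y : FCell j' n', s = fstr n' y) ∨
    ((∀ κ (a : B0 (par κ) × Bool), s ≠ bstr κ a) ∧
      (fin → ∀ i x (y : TCell k ((N i).code i x)), s ≠ mstr ((N i).code i x) y) ∧
      (∀ j n (y : FCell j n), s ≠ fstr n y)) := by
  by_cases h1 : ∃ κ, ∃ a : B0 (par κ) × Bool, s = bstr κ a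
  · exact Or.inl h1
  by_cases h2 : fin ∧ ∃ i x, ∃ y : TCell k ((N i).code i x), s = mstr ((N i).code i x) y
  · exact Or.inr (Or.inl h2)
  by_cases h3 : ∃ j' n', ∃ y : FCell j' n', s = fstr n' y
  · exact Or.inr (Or.inr (Or.inl h3))
  refine Or.inr (Or.inr (Or.inr ⟨fun κ a h => h1 ⟨κ, a, h⟩, fun hf i x y h => h2 ⟨hf, i, x, y, h⟩,
    fun j n y h => h3 ⟨j, n, y, h⟩⟩))

private theorem exists_C_pc (j n : ℕ) (C0 : FCont) (f : FCell j n → Bool) :
    ∃ C : FCont, C j n = f ∧ ∀ j' n', (j', n') ≠ (j, n) → C j' n' = C0 j' n' := by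
  refine ⟨update C0 j (update (C0 j) n f), ?_, ?_⟩
  · rw [update_self, update_self]
  · intro j' n' h
    by_cases hj : j' = j
    · subst hj
      rw [update_self]
      apply update_of_ne
      rintro rfl
      exact h rfl
    · rw [update_of_ne hj]

/-- The contents of the world with the given data. -/
noncomputable def Xb (j n : ℕ) (δ : (κ : List Bool) → Pair κ) (τ : (κ : List Bool) → TPair k κ)
    (β : ℕ → Bool) (C : FCont) : ContK (iP k j n)
  | none => C j n
  | some (false, κ) => XO k fin N F δ τ β C κ
  | some (true, κ) => if ∃ i x, κ = (N i).code i x ∧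
      (N i).Accepts (BO k fin N (XO k fin N F δ τ β C) τ C) x then (τ κ).1.1 else (τ κ).2.1

theorem WP_base (j n : ℕ) (δ : (κ : List Bool) → Pair κ) (τ : (κ : List Bool) → TPair k κ)
    (β : ℕ → Bool) (C : FCont) (s : List Bool) :
    WP k fin N j n C (Xb k fin N F j n δ τ β C) s =
      BO k fin N (XO k fin N F δ τ β C) τ C s := by
  rcases kinds_pc k fin N s with ⟨κ, a, rfl⟩ | ⟨hf, i, x, y, rfl⟩ | ⟨j', n', y, rfl⟩ |
    ⟨h1, h2, h3⟩
  · rw [WP_bstr, Bool.eq_iff_iff, BO_bstr, decide_eq_true_iff]
    rfl
  · rw [WP_mstr k fin N hf, BO_mstr k fin N hf]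
    have h4 : (∃ i' x', (N i).code i x = (N i').code i' x' ∧
        (N i').Accepts (BO k fin N (XO k fin N F δ τ β C) τ C) x') ↔
        (N i).Accepts (BO k fin N (XO k fin N F δ τ β C) τ C) x := by
      constructor
      · rintro ⟨i', x', h5, h6⟩
        obtain ⟨rfl, rfl⟩ := xcode_inj h5
        exact h6
      · intro h6
        exact ⟨i, x, rfl, h6⟩
    show (if ∃ i' x', (N i).code i x = (N i').code i' x' ∧
        (N i').Accepts (BO k fin N (XO k fin N F δ τ β C) τ C) x' then
          (τ ((N i).code i x)).1.1 else (τ ((N i).code i x)).2.1) y = _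
    by_cases h6 : (N i).Accepts (BO k fin N (XO k fin N F δ τ β C) τ C) x
    · rw [if_pos h6, if_pos (h4.2 h6)]
    · rw [if_neg h6, if_neg (fun h => h6 (h4.1 h))]
  · rw [BO_fstr]
    by_cases h : (j', n') = (j, n)
    · rw [Prod.mk.injEq] at h
      obtain ⟨rfl, rfl⟩ := h
      rw [WP_target]
      rfl
    · rw [WP_other k fin N j n C _ h]
  · rw [WP_else k fin N j n C _ h1 h2 h3, BO_else k fin N _ τ C h1 h2 h3]

theorem cons_data (j n : ℕ) (δ0 : (κ : List Bool) → Pair κ)
    (τ0 : (κ : List Bool) → TPair k κ) (β : ℕ → Bool) (C0 : FCont) (b : Prop)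
    (X : ContK (iP k j n))
    (h1 : ∀ κ, rkP n κ < n → X κ = Xb k fin N F j n δ0 τ0 β C0 κ)
    (h2 : ∀ κ, n ≤ rkP n κ → (BP k fin N F j n β C0 b κ X → Yq k j n κ (X κ)) ∧
      (¬ BP k fin N F j n β C0 b κ X → Nq k j n κ (X κ))) :
    ∃ (δ : (κ : List Bool) → Pair κ) (τ : (κ : List Bool) → TPair k κ) (C : FCont),
      (∀ κ, κ.length < n → δ κ = δ0 κ) ∧ (∀ κ, κ.length < n → τ κ = τ0 κ) ∧
      (∀ j' n', n' < n → C j' n' = C0 j' n') ∧
      BO k fin N (XO k fin N F δ τ β C) τ C = WP k fin N j n C0 X := by
  obtain ⟨C, hC1, hC2⟩ := exists_C_pc j n C0 (X none)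
  have hC3 : ∀ j' n', n' < n → C j' n' = C0 j' n' := by
    intro j' n' h
    apply hC2
    intro h'
    rw [Prod.mk.injEq] at h'
    omega
  -- the pairs for the Forrelation blocks
  have hδ : ∀ κ : List Bool, ∃ p : Pair κ, (κ.length < n → p = δ0 κ) ∧ (n ≤ κ.length →
      X (some (false, κ)) = if BP k fin N F j n β C0 b (some (false, κ)) X then p.1.1
        else p.2.1) := by
    intro κ
    by_cases hκ : κ.length < n
    · exact ⟨δ0 κ, fun _ => rfl, fun h => absurd hκ (by omega)⟩
    · have hκ' : n ≤ κ.length := by omega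
      obtain ⟨h3, h4⟩ := h2 (some (false, κ)) hκ'
      have hpos : 0 < par κ := by show 0 < 4 * κ.length + 4; omega
      by_cases hB : BP k fin N F j n β C0 b (some (false, κ)) X
      · obtain ⟨z, hz⟩ := exists_no hpos
        refine ⟨(⟨X (some (false, κ)), h3 hB⟩, ⟨z, hz⟩), fun h => absurd h hκ, fun _ => ?_⟩
        rw [if_pos hB]
      · obtain ⟨z, hz⟩ := exists_yes hpos
        refine ⟨(⟨z, hz⟩, ⟨X (some (false, κ)), h4 hB⟩), fun h => absurd h hκ, fun _ => ?_⟩
        rw [if_neg hB]
  choose δ hδ1 hδ2 using hδ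
  have hτ : ∀ κ : List Bool, ∃ p : TPair k κ, (κ.length < n → p = τ0 κ) ∧ (n ≤ κ.length →
      X (some (true, κ)) = if BP k fin N F j n β C0 b (some (true, κ)) X then p.1.1
        else p.2.1) := by
    intro κ
    by_cases hκ : κ.length < n
    · exact ⟨τ0 κ, fun _ => rfl, fun h => absurd hκ (by omega)⟩
    · have hκ' : n ≤ κ.length := by omega
      obtain ⟨h3, h4⟩ := h2 (some (true, κ)) hκ'
      by_cases hB : BP k fin N F j n β C0 b (some (true, κ)) X
      · refine ⟨(⟨X (some (true, κ)), h3 hB⟩, ⟨fun _ => false, TT_const k false⟩),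
          fun h => absurd h hκ, fun _ => ?_⟩
        rw [if_pos hB]
      · refine ⟨(⟨fun _ => true, TT_const k true⟩, ⟨X (some (true, κ)), h4 hB⟩),
          fun h => absurd h hκ, fun _ => ?_⟩
        rw [if_neg hB]
  choose τ hτ1 hτ2 using hτ
  refine ⟨δ, τ, C, hδ1, hτ1, hC3, ?_⟩
  obtain ⟨X', hX'⟩ : ∃ X' : Cont, ∀ κ, X' κ = X (some (false, κ)) := ⟨_, fun _ => rfl⟩
  -- the base world agrees on short strings
  have hbase : ∀ s : List Bool, s.length ≤ n → WP k fin N j n C0 X s =
      BO k fin N (XO k fin N F δ0 τ0 β C0) τ0 C0 s := by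
    intro s hs
    rw [← WP_base]
    exact WP_congr k fin N j n C0 h1 s hs
  have hB : ∀ (l : ℕ) (s : List Bool), s.length ≤ l →
      BO k fin N X' τ C s = WP k fin N j n C0 X s := by
    intro l
    induction l with
    | zero =>
      intro s hs
      have hs0 : s = [] := List.length_eq_zero_iff.1 (by omega)
      subst hs0
      have e1 : ∀ κ (a : B0 (par κ) × Bool), ([] : List Bool) ≠ bstr κ a := by
        intro κ a h
        exact absurd h (by simp [bstr])
      have e2 : fin → ∀ i x (y : TCell k ((N i).code i x)),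
          ([] : List Bool) ≠ mstr ((N i).code i x) y := by
        intro _ i x y h
        exact absurd h (by simp [mstr])
      have e3 : ∀ j n (y : FCell j n), ([] : List Bool) ≠ fstr n y := by
        intro j n y h
        exact absurd h (by simp [fstr])
      rw [WP_else k fin N j n C0 _ e1 e2 e3, BO_else k fin N _ τ C e1 e2 e3]
    | succ l ih =>
      intro s hs
      rcases kinds_pc k fin N s with ⟨κ, a, rfl⟩ | ⟨hf, i, x, y, rfl⟩ | ⟨j', n', y, rfl⟩ |
        ⟨e1, e2, e3⟩
      · rw [WP_bstr, Bool.eq_iff_iff, BO_bstr, decide_eq_true_iff]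
        simp only [hX']
      · have hl1 := mstr_length_gt y
        have hl2 := xcode_length (N i) i x
        rw [WP_mstr k fin N hf, BO_mstr k fin N hf]
        have hacc : (N i).Accepts (BO k fin N X' τ C) x ↔
            (N i).Accepts (WP k fin N j n C0 X) x :=
          (N i).accepts_congr x (fun s hs => ih s (by omega))
        by_cases hκ : n ≤ ((N i).code i x).length
        · have h5 : BP k fin N F j n β C0 b (some (true, (N i).code i x)) X ↔
              (N i).Accepts (BO k fin N X' τ C) x := by
            rw [hacc]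
            constructor
            · rintro ⟨i', x', h6, h7⟩
              obtain ⟨rfl, rfl⟩ := xcode_inj h6
              exact h7
            · intro h7
              exact ⟨i, x, rfl, h7⟩
          rw [hτ2 _ hκ]
          by_cases h6 : (N i).Accepts (BO k fin N X' τ C) x
          · rw [if_pos h6, if_pos (h5.2 h6)]
          · rw [if_neg h6, if_neg (fun h => h6 (h5.1 h))]
        · have hκ' : ((N i).code i x).length < n := by omega
          rw [h1 (some (true, (N i).code i x)) hκ', hτ1 _ hκ']
          have h5 : (∃ i' x', (N i).code i x = (N i').code i' x' ∧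
              (N i').Accepts (BO k fin N (XO k fin N F δ0 τ0 β C0) τ0 C0) x') ↔
              (N i).Accepts (BO k fin N X' τ C) x := by
            rw [hacc, (N i).accepts_congr x (A := WP k fin N j n C0 X)
              (A' := BO k fin N (XO k fin N F δ0 τ0 β C0) τ0 C0)
              (fun s hs => hbase s (by omega))]
            constructor
            · rintro ⟨i', x', h6, h7⟩
              obtain ⟨rfl, rfl⟩ := xcode_inj h6
              exact h7
            · intro h7
              exact ⟨i, x, rfl, h7⟩
          show _ = (if ∃ i' x', (N i).code i x = (N i').code i' x' ∧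
              (N i').Accepts (BO k fin N (XO k fin N F δ0 τ0 β C0) τ0 C0) x' then
                (τ0 ((N i).code i x)).1.1 else (τ0 ((N i).code i x)).2.1) y
          by_cases h6 : (N i).Accepts (BO k fin N X' τ C) x
          · rw [if_pos h6, if_pos (h5.2 h6)]
          · rw [if_neg h6, if_neg (fun h => h6 (h5.1 h))]
      · rw [BO_fstr]
        by_cases h : (j', n') = (j, n)
        · rw [Prod.mk.injEq] at h
          obtain ⟨rfl, rfl⟩ := h
          rw [WP_target, hC1]
        · rw [WP_other k fin N j n C0 _ h, hC2 j' n' h]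
      · rw [WP_else k fin N j n C0 _ e1 e2 e3, BO_else k fin N _ τ C e1 e2 e3]
  have hBO : BO k fin N X' τ C = WP k fin N j n C0 X := funext fun s => hB s.length s le_rfl
  have hXO : X' = XO k fin N F δ τ β C := by
    apply XO_unique
    intro κ
    by_cases hκ : κ.length < n
    · rw [hX', h1 (some (false, κ)) hκ, hδ1 κ hκ]
      show XO k fin N F δ0 τ0 β C0 κ = _
      rw [XO_spec]
      have h5 : BitO k fin N F τ β C X' κ ↔
          BitO k fin N F τ0 β C0 (XO k fin N F δ0 τ0 β C0) κ := by
        apply BitO_congr k fin N F rfl (fun κ' h => hτ1 κ' (by omega))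
          (fun j' n' h => hC3 j' n' (by omega))
        intro κ' h
        rw [hX', h1 (some (false, κ')) (show κ'.length < n by omega)]
        rfl
      by_cases h6 : BitO k fin N F τ β C X' κ
      · rw [if_pos h6, if_pos (h5.1 h6)]
      · rw [if_neg h6, if_neg (fun h => h6 (h5.2 h))]
    · rw [hX', hδ2 κ (by omega)]
      have h5 : BitO k fin N F τ β C X' κ ↔
          BP k fin N F j n β C0 b (some (false, κ)) X := by
        unfold BitO
        rw [hBO]
        exact Iff.rfl
      by_cases h6 : BitO k fin N F τ β C X' κ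
      · rw [if_pos h6, if_pos (h5.1 h6)]
      · rw [if_neg h6, if_neg (fun h => h6 (h5.2 h))]
  rw [← hXO, hBO]

theorem exists_Yq (k j n : ℕ) (κ : PK) : ∃ y, Yq k j n κ y := by
  rcases κ with _ | ⟨e, κ⟩
  · exact ⟨fun _ => true, TT_const (j + 1) true⟩
  · cases e
    · exact exists_yes (m := par κ) (by show 0 < 4 * κ.length + 4; omega)
    · exact ⟨fun _ => true, TT_const k true⟩

theorem exists_Nq (k j n : ℕ) (κ : PK) : ∃ y, Nq k j n κ y := by
  rcases κ with _ | ⟨e, κ⟩
  · exact ⟨fun _ => false, TT_const (j + 1) false⟩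
  · cases e
    · exact exists_no (m := par κ) (by show 0 < 4 * κ.length + 4; omega)
    · exact ⟨fun _ => false, TT_const k false⟩

end Pool.Agent.Helper67.EL
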