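import Pool.Agent.Helper67.EL.WData
import Pool.Agent.Helper67.LB.HAbs

set_option autoImplicit false
set_option linter.unusedSectionVars false

/-!
The hybrid argument for the free blocks: keys, contents, oracles. (Definitions.)

The key `none` is the target block `(j, n)`, the key `some (false, κ)` is the Forrelation block with the
code `κ`, and the key `some (true, κ)` is the block `mstr κ ·`.
-/

namespace Pool.Agent.Helper67.EL

open Finset Function Classical
open Pool.Agent.Helper67.EQP Pool.Agent.Helper67.LB

/-- The keys. -/
abbrev PK : Type := Option (Bool × List Bool)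

/-- Rank of the keys. -/
def rkP (n : ℕ) : PK → ℕ
  | none => n
  | some p => p.2.length

/-- Positions of the contents. -/
def iP (k j n : ℕ) : PK → Type
  | none => FCell j n
  | some (false, κ) => Idx (par κ)
  | some (true, κ) => TCell k κ

instance iP_fintype (k j n : ℕ) : ∀ κ, Fintype (iP k j n κ)
  | none => inferInstanceAs (Fintype (FCell j n))
  | some (false, κ) => inferInstanceAs (Fintype (Idx (par κ)))
  | some (true, κ) => inferInstanceAs (Fintype (TCell k κ))

instance iP_decEq (k j n : ℕ) : ∀ κ, DecidableEq (iP k j n κ)
  | none => inferInstanceAs (DecidableEq (FCell j n))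
  | some (false, κ) => inferInstanceAs (DecidableEq (Idx (par κ)))
  | some (true, κ) => inferInstanceAs (DecidableEq (TCell k κ))

/-- Contents with the value 1. -/
def Yq (k j n : ℕ) : (κ : PK) → (iP k j n κ → Bool) → Prop
  | none, y => TT (Y := Fin (4 * (2 * n)) → Bool) (j + 1) y = true
  | some (false, κ), y => Yes (par κ) y
  | some (true, κ), y => TT (Y := Fin (wid κ) → Bool) k y = true

/-- Contents with the value 0. -/
def Nq (k j n : ℕ) : (κ : PK) → (iP k j n κ → Bool) → Prop
  | none, y => TT (Y := Fin (4 * (2 * n)) → Bool) (j + 1) y = false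
  | some (false, κ), y => No (par κ) y
  | some (true, κ), y => TT (Y := Fin (wid κ) → Bool) k y = false

variable (k : ℕ) (fin : Prop) (N : ℕ → XMachine (k + 1)) (F : ℕ → OFun)

/-- The oracle defined by the contents; the other free blocks are given by `C0`. -/
noncomputable def WP (j n : ℕ) (C0 : FCont) (X : ContK (iP k j n)) (s : List Bool) : Bool :=
  decide (
    (∃ (κ : List Bool) (a : B0 (par κ) × Bool) (i : Idx (par κ)),
      s = bstr κ a ∧ posn (par κ) a = some i ∧ X (some (false, κ)) i = true) ∨
    (fin ∧ ∃ i x, ∃ y : TCell k ((N i).code i x), s = mstr ((N i).code i x) y ∧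
      X (some (true, (N i).code i x)) y = true) ∨
    (∃ y : FCell j n, s = fstr n y ∧ X none y = true) ∨
    ∃ j' n', ∃ y : FCell j' n', (j', n') ≠ (j, n) ∧ s = fstr n' y ∧ C0 j' n' y = true)

/-- The bits which should be encoded by the contents; `b` is the intended value of the target. -/
def BP (j n : ℕ) (β : ℕ → Bool) (C0 : FCont) (b : Prop) : PK → ContK (iP k j n) → Prop
  | none, _ => b
  | some (false, κ), X => (κ = List.replicate κ.length true ∧ β κ.length = true) ∨
      ∃ i x, κ = (F i).code i x ∧ (F i).F (WP k fin N j n C0 X) x = true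
  | some (true, κ), X => ∃ i x, κ = (N i).code i x ∧ (N i).Accepts (WP k fin N j n C0 X) x

end Pool.Agent.Helper67.EL
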