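import Pool.Agent.Helper67.EL.PDefs

set_option autoImplicit false
set_option linter.unusedSectionVars false

/-!
The oracles `WP`: values and locality. (EL-11.)

* `WP_bstr`, `WP_mstr`, `WP_target`, `WP_other`: the kinds of strings are different (`mstr_ne_bstr`,
  `mstr_ne_fstr`, `LB.fstr_ne_bstr`), blocks and positions are determined by the strings (`EQP.bstr_inj`,
  `LB.bstr_inj2`, `mstr_code_inj`, `LB.mstr_inj`, `xcode_inj`, `fstr_all_inj`, `LB.fstr_inj`).
* `WP_congr`: a string `bstr κ a` has length `13 * κ.length + 20`, a string `mstr κ y` is longer than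
  `κ`, a string `fstr n y` is longer than `n` (`mstr_length_gt`, `fstr_length_gt`).
* `BP_congr`: `(F i).loc`, `XMachine.accepts_congr` with `WP_congr`; the strings read have length at most
  `(F i).space x.length`, `(N i).time x.length`, and these are smaller than the length of the code
  (`EQP.fcode_length`, `xcode_length`).
-/

namespace Pool.Agent.Helper67.EL

open Finset Function Classical
open Pool.Agent.Helper67.EQP Pool.Agent.Helper67.LB

variable (k : ℕ) (fin : Prop) (N : ℕ → XMachine (k + 1)) (F : ℕ → OFun)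

theorem WP_bstr (j n : ℕ) (C0 : FCont) (X : ContK (iP k j n)) (κ : List Bool)
    (a : B0 (par κ) × Bool) :
    WP k fin N j n C0 X (bstr κ a) =
      decide (∃ i : Idx (par κ), posn (par κ) a = some i ∧ X (some (false, κ)) i = true) := by
  rw [Bool.eq_iff_iff]
  unfold WP
  simp only [decide_eq_true_eq]
  constructor
  · rintro (⟨κ', a', i, h1, h2, h3⟩ | ⟨_, i, x, y, h1, _⟩ | ⟨y, h1, _⟩ | ⟨j', n', y, _, h1, _⟩)
    · have hκ := bstr_inj h1
      subst hκ
      have ha := bstr_inj2 h1
      subst ha
      exact ⟨i, h2, h3⟩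
    · exact absurd h1.symm (mstr_ne_bstr _ _)
    · exact absurd h1.symm (fstr_ne_bstr _ _ _)
    · exact absurd h1.symm (fstr_ne_bstr _ _ _)
  · rintro ⟨i, h2, h3⟩
    exact Or.inl ⟨κ, a, i, rfl, h2, h3⟩

theorem WP_mstr (hfin : fin) (j n : ℕ) (C0 : FCont) (X : ContK (iP k j n)) (i : ℕ)
    (x : List Bool) (y : TCell k ((N i).code i x)) :
    WP k fin N j n C0 X (mstr ((N i).code i x) y) = X (some (true, (N i).code i x)) y := by
  rw [Bool.eq_iff_iff]
  unfold WP
  simp only [decide_eq_true_eq]
  constructor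
  · rintro (⟨κ', a', i', h1, _⟩ | ⟨_, i', x', y', h1, h2⟩ | ⟨y', h1, _⟩ | ⟨j', n', y', _, h1, _⟩)
    · exact absurd h1 (mstr_ne_bstr _ _)
    · have hc := mstr_code_inj h1
      obtain ⟨rfl, rfl⟩ := xcode_inj hc
      have hy := mstr_inj h1
      subst hy
      exact h2
    · exact absurd h1 (mstr_ne_fstr _ _ _)
    · exact absurd h1 (mstr_ne_fstr _ _ _)
  · intro h
    exact Or.inr (Or.inl ⟨hfin, i, x, y, rfl, h⟩)

theorem WP_target (j n : ℕ) (C0 : FCont) (X : ContK (iP k j n)) (y : FCell j n) :
    WP k fin N j n C0 X (fstr n y) = X none y := by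
  rw [Bool.eq_iff_iff]
  unfold WP
  simp only [decide_eq_true_eq]
  constructor
  · rintro (⟨κ', a', i', h1, _⟩ | ⟨_, i', x', y', h1, h2⟩ | ⟨y', h1, h2⟩ | ⟨j', n', y', h3, h1, _⟩)
    · exact absurd h1 (fstr_ne_bstr _ _ _)
    · exact absurd h1.symm (mstr_ne_fstr _ _ _)
    · have hy := fstr_inj h1
      subst hy
      exact h2
    · obtain ⟨h4, h5⟩ := fstr_all_inj h1
      exact absurd (by rw [h4, h5]) h3
  · intro h
    exact Or.inr (Or.inr (Or.inl ⟨y, rfl, h⟩))

theorem WP_other (j n : ℕ) (C0 : FCont) (X : ContK (iP k j n)) {j' n' : ℕ}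
    (h : (j', n') ≠ (j, n)) (y : FCell j' n') :
    WP k fin N j n C0 X (fstr n' y) = C0 j' n' y := by
  rw [Bool.eq_iff_iff]
  unfold WP
  simp only [decide_eq_true_eq]
  constructor
  · rintro (⟨κ', a', i', h1, _⟩ | ⟨_, i', x', y', h1, h2⟩ | ⟨y', h1, h2⟩ |
      ⟨j'', n'', y', h3, h1, h2⟩)
    · exact absurd h1 (fstr_ne_bstr _ _ _)
    · exact absurd h1.symm (mstr_ne_fstr _ _ _)
    · obtain ⟨h4, h5⟩ := fstr_all_inj h1
      exact absurd (by rw [h4, h5]) h
    · obtain ⟨h4, h5⟩ := fstr_all_inj h1
      subst h4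
      subst h5
      have hy := fstr_inj h1
      subst hy
      exact h2
  · intro h'
    exact Or.inr (Or.inr (Or.inr ⟨j', n', y, h, rfl, h'⟩))

theorem WP_else (j n : ℕ) (C0 : FCont) (X : ContK (iP k j n)) {s : List Bool}
    (h1 : ∀ κ (a : B0 (par κ) × Bool), s ≠ bstr κ a)
    (h2 : fin → ∀ i x (y : TCell k ((N i).code i x)), s ≠ mstr ((N i).code i x) y)
    (h3 : ∀ j n (y : FCell j n), s ≠ fstr n y) : WP k fin N j n C0 X s = false := by
  unfold WP
  rw [decide_eq_false_iff_not]
  rintro (⟨κ', a', i', h, _⟩ | ⟨hf, i', x', y', h, _⟩ | ⟨y', h, _⟩ | ⟨j', n', y', _, h, _⟩)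
  · exact h1 _ _ h
  · exact h2 hf _ _ _ h
  · exact h3 _ _ _ h
  · exact h3 _ _ _ h

theorem WP_congr (j n : ℕ) (C0 : FCont) {X X' : ContK (iP k j n)} {l : ℕ}
    (h : ∀ κ, rkP n κ < l → X κ = X' κ) (s : List Bool) (hs : s.length ≤ l) :
    WP k fin N j n C0 X s = WP k fin N j n C0 X' s := by
  unfold WP
  congr 1
  apply propext
  refine or_congr ?_ (or_congr ?_ (or_congr ?_ Iff.rfl))
  · refine exists_congr fun κ => exists_congr fun a => exists_congr fun i =>
      and_congr_right fun h1 => ?_
    have h2 : κ.length < l := by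
      rw [h1, bstr_length] at hs
      omega
    rw [h (some (false, κ)) h2]
  · refine and_congr_right fun _ => exists_congr fun i => exists_congr fun x =>
      exists_congr fun y => and_congr_right fun h1 => ?_
    have h2 : ((N i).code i x).length < l := by
      rw [h1] at hs
      exact lt_of_lt_of_le (mstr_length_gt y) hs
    rw [h (some (true, (N i).code i x)) h2]
  · refine exists_congr fun y => and_congr_right fun h1 => ?_
    have h2 : n < l := by
      rw [h1] at hs
      exact lt_of_lt_of_le (fstr_length_gt n y) hs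
    rw [h none h2]

theorem BP_congr (j n : ℕ) (β : ℕ → Bool) (C0 : FCont) (b : Prop) (κ : PK)
    (X X' : ContK (iP k j n)) (h : ∀ κ', rkP n κ' < rkP n κ → X κ' = X' κ') :
    BP k fin N F j n β C0 b κ X ↔ BP k fin N F j n β C0 b κ X' := by
  match κ with
  | none => exact Iff.rfl
  | some (false, κ) =>
    unfold BP
    refine or_congr Iff.rfl (exists_congr fun i => exists_congr fun x =>
      and_congr_right fun h1 => ?_)
    have h2 : (F i).F (WP k fin N j n C0 X) x = (F i).F (WP k fin N j n C0 X') x := by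
      apply (F i).loc
      intro s hs
      apply WP_congr k fin N j n C0 (l := κ.length) h s
      rw [h1, fcode_length]
      omega
    rw [h2]
  | some (true, κ) =>
    unfold BP
    refine exists_congr fun i => exists_congr fun x => and_congr_right fun h1 => ?_
    apply XMachine.accepts_congr
    intro s hs
    apply WP_congr k fin N j n C0 (l := κ.length) h s
    rw [h1, xcode_length]
    omega

/-- The oracle does not depend on the blocks `mstr` if `fin` fails. -/
theorem WP_nofin (hfin : ¬ fin) (j n : ℕ) (C0 : FCont) (X : ContK (iP k j n)) (κ : List Bool)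
    (y : iP k j n (some (true, κ)) → Bool) :
    WP k fin N j n C0 (update X (some (true, κ)) y) = WP k fin N j n C0 X := by
  funext s
  unfold WP
  congr 1
  apply propext
  refine or_congr ?_ (or_congr ?_ (or_congr ?_ Iff.rfl))
  · refine exists_congr fun κ' => exists_congr fun a => exists_congr fun i =>
      and_congr_right fun h1 => ?_
    rw [update_of_ne (by simp)]
  · exact ⟨fun h => absurd h.1 hfin, fun h => absurd h.1 hfin⟩
  · refine exists_congr fun y' => and_congr_right fun h1 => ?_
    rw [update_of_ne (by simp)]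

end Pool.Agent.Helper67.EL
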