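import Pool.Agent.Helper67.EL.WOrac

set_option autoImplicit false
set_option linter.unusedSectionVars false

/-!
The contents of the Forrelation blocks defined by the data. (EL-05; compare the section `data` of
`EQP/CWorld.lean`: `Bit`, `ΨX`, `Bit_congr`, `exists_X`, `XA`, `XA_spec`, `XA_congr`, `XA_update`,
`Bit_code`, `Bit_free`; the proofs are the same with `BO k fin N X τ C` in the place of `BX N X`, using
`BO_congr`.)
-/

namespace Pool.Agent.Helper67.EL

open Finset Function Classical
open Pool.Agent.Helper67.EQP Pool.Agent.Helper67.LB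

variable (k : ℕ) (fin : Prop) (N : ℕ → XMachine (k + 1)) (F : ℕ → OFun)

/-- The bit encoded by the Forrelation block with the code `κ`. -/
def BitO (τ : (κ : List Bool) → TPair k κ) (β : ℕ → Bool) (C : FCont) (X : Cont)
    (κ : List Bool) : Prop :=
  (κ = List.replicate κ.length true ∧ β κ.length = true) ∨
    ∃ i x, κ = (F i).code i x ∧ (F i).F (BO k fin N X τ C) x = true

theorem BitO_congr {τ τ' : (κ : List Bool) → TPair k κ} {β β' : ℕ → Bool} {C C' : FCont}
    {X X' : Cont} {κ : List Bool} (hβ : β κ.length = β' κ.length)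
    (hτ : ∀ κ', κ'.length < κ.length → τ κ' = τ' κ')
    (hC : ∀ j n, n < κ.length → C j n = C' j n)
    (h : ∀ κ', κ'.length < κ.length → X κ' = X' κ') :
    BitO k fin N F τ β C X κ ↔ BitO k fin N F τ' β' C' X' κ := by
  unfold BitO
  rw [hβ]
  apply or_congr_right
  apply exists_congr
  intro i
  apply exists_congr
  intro x
  apply and_congr_right
  intro h1
  have hlen : κ.length = i + (F i).space x.length + x.length + 2 := by
    rw [← fcode_length, ← h1]
  have h2 : (F i).F (BO k fin N X τ C) x = (F i).F (BO k fin N X' τ' C') x := by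
    apply (F i).loc
    intro s hs
    apply BO_congr k fin N (l := (F i).space x.length) _ _ _ s hs
    · intro κ' hκ'
      apply h
      omega
    · intro κ' hκ'
      apply hτ
      omega
    · intro j n hn
      apply hC
      omega
  rw [h2]

theorem exists_XO (δ : (κ : List Bool) → Pair κ) (τ : (κ : List Bool) → TPair k κ)
    (β : ℕ → Bool) (C : FCont) :
    ∃ X : Cont, ∀ κ, X κ = if BitO k fin N F τ β C X κ then (δ κ).1.1 else (δ κ).2.1 := by
  apply exists_fix (V := fun κ => Idx (par κ) → Bool) List.length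
    (fun (X : Cont) κ => if BitO k fin N F τ β C X κ then (δ κ).1.1 else (δ κ).2.1)
    (fun κ _ => false)
  intro κ X X' h
  have := BitO_congr k fin N F (τ := τ) (τ' := τ) (β := β) (β' := β) (C := C) (C' := C)
    (X := X) (X' := X') (κ := κ) rfl (fun _ _ => rfl) (fun _ _ _ => rfl) h
  simp only [this]

/-- The contents of the Forrelation blocks. -/
noncomputable def XO (δ : (κ : List Bool) → Pair κ) (τ : (κ : List Bool) → TPair k κ)
    (β : ℕ → Bool) (C : FCont) : Cont := (exists_XO k fin N F δ τ β C).choose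

theorem XO_spec (δ : (κ : List Bool) → Pair κ) (τ : (κ : List Bool) → TPair k κ)
    (β : ℕ → Bool) (C : FCont) (κ : List Bool) :
    XO k fin N F δ τ β C κ =
      if BitO k fin N F τ β C (XO k fin N F δ τ β C) κ then (δ κ).1.1 else (δ κ).2.1 :=
  (exists_XO k fin N F δ τ β C).choose_spec κ

theorem XO_congr {δ δ' : (κ : List Bool) → Pair κ} {τ τ' : (κ : List Bool) → TPair k κ}
    {β β' : ℕ → Bool} {C C' : FCont} {l : ℕ} (hδ : ∀ κ, κ.length < l → δ κ = δ' κ)
    (hτ : ∀ κ, κ.length < l → τ κ = τ' κ) (hβ : ∀ n, n < l → β n = β' n)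
    (hC : ∀ j n, n < l → C j n = C' j n) :
    ∀ κ, κ.length < l → XO k fin N F δ τ β C κ = XO k fin N F δ' τ' β' C' κ := by
  have key : ∀ n, ∀ κ : List Bool, κ.length = n → κ.length < l →
      XO k fin N F δ τ β C κ = XO k fin N F δ' τ' β' C' κ := by
    intro n
    induction n using Nat.strong_induction_on with
    | _ n ih =>
      intro κ hκ hl
      rw [XO_spec, XO_spec, hδ κ hl]
      have := BitO_congr k fin N F (τ := τ) (τ' := τ') (β := β) (β' := β') (C := C) (C' := C')
        (X := XO k fin N F δ τ β C) (X' := XO k fin N F δ' τ' β' C') (κ := κ)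
        (hβ _ hl) (fun κ' hκ' => hτ κ' (by omega)) (fun j n hn => hC j n (by omega))
        (fun κ' hκ' => ih κ'.length (by omega) κ' rfl (by omega))
      simp only [this]
  exact fun κ hκ => key κ.length κ rfl hκ

/-- Contents satisfying the defining equation are equal. -/
theorem XO_unique {δ : (κ : List Bool) → Pair κ} {τ : (κ : List Bool) → TPair k κ}
    {β : ℕ → Bool} {C : FCont} {X : Cont}
    (hX : ∀ κ, X κ = if BitO k fin N F τ β C X κ then (δ κ).1.1 else (δ κ).2.1) :
    X = XO k fin N F δ τ β C := by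
  have key : ∀ n, ∀ κ : List Bool, κ.length = n → X κ = XO k fin N F δ τ β C κ := by
    intro n
    induction n using Nat.strong_induction_on with
    | _ n ih =>
      intro κ hκ
      rw [XO_spec, hX κ]
      have := BitO_congr k fin N F (τ := τ) (τ' := τ) (β := β) (β' := β) (C := C) (C' := C)
        (X := X) (X' := XO k fin N F δ τ β C) (κ := κ)
        rfl (fun _ _ => rfl) (fun _ _ _ => rfl)
        (fun κ' hκ' => ih κ'.length (by omega) κ' rfl)
      simp only [this]
  funext κ
  exact key κ.length κ rfl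

/-- Changing the data at one code changes only the contents there and at longer codes. -/
theorem XO_update {δ δ' : (κ : List Bool) → Pair κ} {τ : (κ : List Bool) → TPair k κ}
    {β : ℕ → Bool} {C : FCont} {κ0 : List Bool} (hδ : ∀ κ, κ ≠ κ0 → δ κ = δ' κ) :
    ∀ κ, κ ≠ κ0 → κ.length ≤ κ0.length →
      XO k fin N F δ τ β C κ = XO k fin N F δ' τ β C κ := by
  have h1 : ∀ κ, κ.length < κ0.length → XO k fin N F δ τ β C κ = XO k fin N F δ' τ β C κ := by
    apply XO_congr
    · intro κ hκ
      apply hδ
      rintro rfl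
      exact lt_irrefl _ hκ
    · intro κ _
      rfl
    · intro n _
      rfl
    · intro j n _
      rfl
  intro κ hκ hl
  rw [XO_spec, XO_spec, hδ κ hκ]
  have := BitO_congr k fin N F (τ := τ) (τ' := τ) (β := β) (β' := β) (C := C) (C' := C)
    (X := XO k fin N F δ τ β C) (X' := XO k fin N F δ' τ β C) (κ := κ)
    rfl (fun _ _ => rfl) (fun _ _ _ => rfl) (fun κ' hκ' => h1 κ' (by omega))
  simp only [this]

theorem BitO_code (τ : (κ : List Bool) → TPair k κ) (β : ℕ → Bool) (C : FCont) (X : Cont)
    (i : ℕ) (x : List Bool) :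
    BitO k fin N F τ β C X ((F i).code i x) ↔ (F i).F (BO k fin N X τ C) x = true := by
  unfold BitO
  constructor
  · rintro (⟨h, _⟩ | ⟨i', x', h, h2⟩)
    · exact absurd h pcode_ne_ones
    · obtain ⟨rfl, rfl⟩ := pcode_inj h
      exact h2
  · intro h
    exact Or.inr ⟨i, x, rfl, h⟩

theorem BitO_free (τ : (κ : List Bool) → TPair k κ) (β : ℕ → Bool) (C : FCont) (X : Cont)
    (n : ℕ) : BitO k fin N F τ β C X (List.replicate n true) ↔ β n = true := by
  unfold BitO
  rw [List.length_replicate]
  constructor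
  · rintro (⟨_, h⟩ | ⟨i', x', h, h2⟩)
    · exact h
    · exact absurd h.symm pcode_ne_ones
  · intro h
    exact Or.inl ⟨rfl, h⟩

/-- The oracle on short strings depends only on the data of small rank. -/
theorem BOX_congr {δ δ' : (κ : List Bool) → Pair κ} {τ τ' : (κ : List Bool) → TPair k κ}
    {β β' : ℕ → Bool} {C C' : FCont} {l : ℕ} (hδ : ∀ κ, κ.length < l → δ κ = δ' κ)
    (hτ : ∀ κ, κ.length < l → τ κ = τ' κ) (hβ : ∀ n, n < l → β n = β' n)
    (hC : ∀ j n, n < l → C j n = C' j n) (s : List Bool) (hs : s.length ≤ l) :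
    BO k fin N (XO k fin N F δ τ β C) τ C s = BO k fin N (XO k fin N F δ' τ' β' C') τ' C' s := by
  apply BO_congr k fin N (l := l) _ hτ hC s hs
  intro κ hκ
  exact XO_congr k fin N F hδ hτ hβ hC κ (by omega)

end Pool.Agent.Helper67.EL
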