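import Pool.Agent.Helper67.EL.Defs
import Pool.Agent.Helper67.LB.TDefs
import Pool.Agent.Helper67.EQP.CHyb

set_option autoImplicit false
set_option linter.unusedSectionVars false

/-!
The oracle defined by the contents of the blocks: definitions.

`X` gives the contents of the Forrelation blocks `bstr κ a`, `τ` gives for every code `κ` of a
computation of a machine `N i` (if `fin` holds) two contents of the block `mstr κ y` with the values 1 and
0, of which the one corresponding to the result of the computation is used, and `C` gives the
contents of the free blocks `fstr n y`.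
-/

namespace Pool.Agent.Helper67.EL

open Finset Function Classical
open Pool.Agent.Helper67.EQP Pool.Agent.Helper67.LB

/-- Positions of the blocks `mstr κ y`. -/
abbrev TCell (k : ℕ) (κ : List Bool) : Type := Fin k → Fin (wid κ) → Bool

/-- Positions of the free blocks. -/
abbrev FCell (j n : ℕ) : Type := Fin (j + 1) → Fin (4 * (2 * n)) → Bool

/-- A content with value 1 and a content with value 0. -/
abbrev TPair (k : ℕ) (κ : List Bool) : Type :=
  {y : TCell k κ → Bool // TT (Y := Fin (wid κ) → Bool) k y = true} ×
    {y : TCell k κ → Bool // TT (Y := Fin (wid κ) → Bool) k y = false}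

/-- Contents of the free blocks. -/
abbrev FCont : Type := (j n : ℕ) → FCell j n → Bool

variable (k : ℕ) (fin : Prop) (N : ℕ → XMachine (k + 1))

/-- The defining operator of the oracle. -/
noncomputable def ΦO (X : Cont) (τ : (κ : List Bool) → TPair k κ) (C : FCont)
    (B : List Bool → Bool) (s : List Bool) : Bool :=
  decide (Hit X s ∨
    (fin ∧ ∃ i x, ∃ y : TCell k ((N i).code i x), s = mstr ((N i).code i x) y ∧
      (if (N i).Accepts B x then (τ ((N i).code i x)).1.1 y else (τ ((N i).code i x)).2.1 y) =
        true) ∨
    ∃ j n, ∃ y : FCell j n, s = fstr n y ∧ C j n y = true)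

end Pool.Agent.Helper67.EL
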