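import Pool.Agent.Helper67.EL.WData

set_option autoImplicit false
set_option linter.unusedSectionVars false

/-!
The hybrid argument for the Forrelation blocks. (EL-06; the statements and proofs are those of `EQP.hyb`
and `EQP.hyb_main` in `EQP/CHyb.lean`, with `XO k fin N F δ τ β C` in the place of `XA N F δ β` and
`BitO`, `BitO_congr`, `XO_spec`, `XO_congr`, `XO_update` in the place of `Bit`, `Bit_congr`, `XA_spec`,
`XA_congr`, `XA_update`; `EE`, `EE_congr`, `EE_diff`, `dist_near`, `GoodL`, `exists_L` are used as they are.)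
-/

namespace Pool.Agent.Helper67.EL

open Finset Function Classical
open Pool.Agent.Helper67.EQP Pool.Agent.Helper67.LB

variable (k : ℕ) (fin : Prop) (N : ℕ → XMachine (k + 1)) (F : ℕ → OFun)

theorem hybO {μ1 μ0 : (κ : List Bool) → (Idx (par κ) → Bool) → ℝ} (h1 : ∀ κ, IsDist (μ1 κ))
    (h0 : ∀ κ, IsDist (μ0 κ)) (hs1 : ∀ κ x, ¬ Yes (par κ) x → μ1 κ x = 0)
    (hs0 : ∀ κ x, ¬ No (par κ) x → μ0 κ x = 0) {g : Cont → ℝ} {n b : ℕ} {ε : List Bool → ℝ}
    (hg : ∀ X X' : Cont, (∀ κ, κ.length ≤ b → X κ = X' κ) → g X = g X')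
    (hd : ∀ κ, κ.length ≤ b → ∀ X : Cont,
      |∑ y, μ1 κ y * g (update X κ y) - ∑ z, μ0 κ z * g (update X κ z)| ≤ ε κ)
    (δ0 : (κ : List Bool) → Pair κ) (τ : (κ : List Bool) → TPair k κ) (β : ℕ → Bool)
    (C : FCont) {v : ℝ}
    (hv : ∀ δ : (κ : List Bool) → Pair κ, (∀ κ, κ.length < n → δ κ = δ0 κ) →
      g (XO k fin N F δ τ β C) = v) (ks : List (List Bool)) (hks : GoodL n b ks)
    (hb : ∀ κ ∈ ks, κ.length ≤ b) :
    ∀ δ : (κ : List Bool) → Pair κ, (∀ κ, κ.length < n → δ κ = δ0 κ) →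
      |EE μ0 g ks (XO k fin N F δ τ β C) - v| ≤ (ks.map ε).sum := by
  induction ks with
  | nil =>
    intro δ hδ
    change |g (XO k fin N F δ τ β C) - v| ≤ 0
    rw [hv δ hδ, sub_self, abs_zero]
  | cons κ ks ih =>
    intro δ hδ
    obtain ⟨g1, g2, g3, g4⟩ := hks
    have hbκ : κ.length ≤ b := hb κ (by simp)
    have IH := ih g4 (fun κ' h => hb κ' (by simp [h]))
    set X := XO k fin N F δ τ β C with hX
    set S := (ks.map ε).sum with hS
    have hεκ : 0 ≤ ε κ := (abs_nonneg _).trans (hd κ hbκ X)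
    -- changing the data at κ
    have hrepl : ∀ p : Pair κ, |EE μ0 g ks (update X κ (if BitO k fin N F τ β C X κ then p.1.1 else p.2.1)) - v|
        ≤ S := by
      intro p
      set δ' := update δ κ p with hδ'
      have hne : ∀ κ', κ' ≠ κ → δ κ' = δ' κ' := by
        intro κ' hκ'
        rw [hδ', update_of_ne hκ']
      have h2 := IH δ' (by
        intro κ' hκ'
        rw [← hne κ' (by rintro rfl; omega)]
        exact hδ κ' hκ')
      have h3 : EE μ0 g ks (XO k fin N F δ' τ β C) =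
          EE μ0 g ks (update X κ (if BitO k fin N F τ β C X κ then p.1.1 else p.2.1)) := by
        apply EE_congr hg
        intro κ' hκ' hl
        have hlen := g3 κ' hl hκ'
        by_cases hk : κ' = κ
        · subst hk
          rw [update_self, XO_spec]
          have h4 := BitO_congr k fin N F (τ := τ) (τ' := τ) (β := β) (β' := β) (C := C) (C' := C)
            (X := XO k fin N F δ' τ β C) (X' := X) (κ := κ')
            rfl (fun _ _ => rfl) (fun _ _ _ => rfl) (fun κ'' h'' => (XO_update k fin N F (τ := τ) (β := β) (C := C) hne κ'' (by rintro rfl; omega) (by omega)).symm)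
          have h5 : δ' κ' = p := by rw [hδ', update_self]
          rw [h5]
          simp only [h4]
        · rw [update_of_ne hk]
          exact (XO_update k fin N F (τ := τ) (β := β) (C := C) hne κ' hk hlen).symm
      rw [h3] at h2
      exact h2
    have hE : EE μ0 g (κ :: ks) X = ∑ z, μ0 κ z * EE μ0 g ks (update X κ z) := rfl
    rw [hE, List.map_cons, List.sum_cons, ← hS]
    by_cases ha : BitO k fin N F τ β C X κ
    · have h2 : |∑ y, μ1 κ y * EE μ0 g ks (update X κ y) - v| ≤ S := by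
        apply dist_near (h1 κ) (hs1 κ)
        intro y hy
        have := hrepl (⟨y, hy⟩, (δ κ).2)
        rw [if_pos ha] at this
        exact this
      have h3 := EE_diff h0 (hd κ hbκ) ks g1 X
      have h4 : ∑ z, μ0 κ z * EE μ0 g ks (update X κ z) - v =
          (∑ y, μ1 κ y * EE μ0 g ks (update X κ y) - v) -
          (∑ y, μ1 κ y * EE μ0 g ks (update X κ y) -
            ∑ z, μ0 κ z * EE μ0 g ks (update X κ z)) := by ring
      rw [h4]
      have h5 := abs_sub (∑ y, μ1 κ y * EE μ0 g ks (update X κ y) - v)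
          (∑ y, μ1 κ y * EE μ0 g ks (update X κ y) -
            ∑ z, μ0 κ z * EE μ0 g ks (update X κ z))
      linarith
    · have h2 : |∑ z, μ0 κ z * EE μ0 g ks (update X κ z) - v| ≤ S := by
        apply dist_near (h0 κ) (hs0 κ)
        intro z hz
        have := hrepl ((δ κ).1, ⟨z, hz⟩)
        rw [if_neg ha] at this
        exact this
      linarith

/-- The two worlds cannot be separated. -/
theorem hybO_main {μ1 μ0 : (κ : List Bool) → (Idx (par κ) → Bool) → ℝ}
    (h1 : ∀ κ, IsDist (μ1 κ))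
    (h0 : ∀ κ, IsDist (μ0 κ)) (hs1 : ∀ κ x, ¬ Yes (par κ) x → μ1 κ x = 0)
    (hs0 : ∀ κ x, ¬ No (par κ) x → μ0 κ x = 0) {g : Cont → ℝ} {n b : ℕ} {Q : ℝ} (hQ : 0 ≤ Q)
    (hQn : 4 * Q < 2 ^ n)
    (hg : ∀ X X' : Cont, (∀ κ, κ.length ≤ b → X κ = X' κ) → g X = g X')
    (hd : ∀ κ, κ.length ≤ b → ∀ X : Cont,
      |∑ y, μ1 κ y * g (update X κ y) - ∑ z, μ0 κ z * g (update X κ z)| ≤ Q / 4 ^ κ.length)
    (δ0 : (κ : List Bool) → Pair κ) (τ : (κ : List Bool) → TPair k κ) (β1 β0 : ℕ → Bool)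
    (C : FCont) (hβ : ∀ n' < n, β1 n' = β0 n')
    (hv1 : ∀ δ : (κ : List Bool) → Pair κ, (∀ κ, κ.length < n → δ κ = δ0 κ) →
      g (XO k fin N F δ τ β1 C) = 1)
    (hv0 : ∀ δ : (κ : List Bool) → Pair κ, (∀ κ, κ.length < n → δ κ = δ0 κ) →
      g (XO k fin N F δ τ β0 C) = 0) : False := by
  obtain ⟨L, a1, a2, a3, a4⟩ : ∃ L, GoodL n b L ∧ (∀ κ ∈ L, κ.length ≤ b) ∧
      (∀ κ, n ≤ κ.length → κ.length ≤ b → κ ∈ L) ∧
      (L.map (fun κ => Q / 4 ^ κ.length)).sum ≤ 2 * Q / 2 ^ n := by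
    by_cases hnb : n ≤ b + 1
    · obtain ⟨L, a1, a2, a3, a4⟩ := exists_L n b hQ (b + 1 - n) n (by omega) le_rfl
      exact ⟨L, a1, fun κ hκ => (a2 κ hκ).2, a3, a4⟩
    · refine ⟨[], trivial, fun κ hκ => absurd hκ (by simp), fun κ h1 h2 => by omega, ?_⟩
      simp only [List.map_nil, List.sum_nil]
      positivity
  have b1 := hybO k fin N F h1 h0 hs1 hs0 hg hd δ0 τ β1 C hv1 L a1 a2 δ0 (fun _ _ => rfl)
  have b0 := hybO k fin N F h1 h0 hs1 hs0 hg hd δ0 τ β0 C hv0 L a1 a2 δ0 (fun _ _ => rfl)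
  have e : EE μ0 g L (XO k fin N F δ0 τ β1 C) = EE μ0 g L (XO k fin N F δ0 τ β0 C) := by
    apply EE_congr hg
    intro κ hκ hl
    apply XO_congr k fin N F (l := n) (fun _ _ => rfl) (fun _ _ => rfl) hβ (fun _ _ _ => rfl) κ
    by_contra hlt
    exact hκ (a3 κ (by omega) hl)
  rw [e] at b1
  have h2n : (0 : ℝ) < 2 ^ n := by positivity
  have h3 : 2 * (2 * Q / 2 ^ n) < 1 := by
    rw [← mul_div_assoc, div_lt_one h2n]
    linarith
  have c1 := abs_le.mp b1
  have c0 := abs_le.mp b0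
  linarith [c1.1, c0.2]

end Pool.Agent.Helper67.EL
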