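import Pool.Agent.Helper67.EL.WDefs
import Pool.Agent.Helper67.EL.OCode
import Pool.Agent.Helper67.EL.OComp

set_option autoImplicit false
set_option linter.unusedSectionVars false

/-!
The oracle defined by the contents: existence and basic properties. (EL-03; compare
`EQP.exists_B`, `BX_spec`, `BX_bstr`, `BX_code`, `BX_congr` in `EQP/CWorld.lean`.)

* `exists_BO`: `EQP.exists_fix` with rank `List.length`; the machine `N i` on `x` reads only strings
  of length at most `(N i).time x.length < ((N i).code i x).length < s.length`
  (`XMachine.accepts_congr`, `xcode_length`, `mstr_length_gt`).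
* `BO_bstr`, `BO_mstr`, `BO_fstr`: the three kinds of strings are different (`mstr_ne_bstr`,
  `mstr_ne_fstr`, `LB.fstr_ne_bstr`), and the blocks and positions are determined by the strings
  (`mstr_code_inj`, `LB.mstr_inj`, `xcode_inj`, `fstr_all_inj`, `LB.fstr_inj`; `EQP.hit_bstr`).
* `BO_tt`: the block contains one of the two contents of `τ`, whose values are 1 and 0.
* `BO_congr`: strong induction on the length of `s`; a string `bstr κ a` has length
  `13 * κ.length + 20`, a string `mstr κ y` is longer than `κ`, a string `fstr n y` is longer than `n`.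
-/

namespace Pool.Agent.Helper67.EL

open Finset Function Classical
open Pool.Agent.Helper67.EQP Pool.Agent.Helper67.LB

variable (k : ℕ) (fin : Prop) (N : ℕ → XMachine (k + 1))

theorem exists_BO (X : Cont) (τ : (κ : List Bool) → TPair k κ) (C : FCont) :
    ∃ B : List Bool → Bool, ∀ s, B s = ΦO k fin N X τ C B s := by
  apply exists_fix (V := fun _ => Bool) List.length (ΦO k fin N X τ C) (fun _ => false)
  intro s B B' h
  unfold ΦO
  congr 1
  apply propext
  apply or_congr Iff.rfl
  apply or_congr _ Iff.rfl
  apply and_congr_right
  intro _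
  apply exists_congr
  intro i
  apply exists_congr
  intro x
  apply exists_congr
  intro y
  apply and_congr_right
  intro hs
  have hacc : (N i).Accepts B x ↔ (N i).Accepts B' x := by
    apply XMachine.accepts_congr
    intro s' hs'
    apply h
    have h1 := mstr_length_gt (κ := (N i).code i x) y
    rw [← hs, xcode_length] at h1
    omega
  simp only [hacc]

/-- The oracle defined by the contents. -/
noncomputable def BO (X : Cont) (τ : (κ : List Bool) → TPair k κ) (C : FCont) :
    List Bool → Bool := (exists_BO k fin N X τ C).choose

theorem BO_spec (X : Cont) (τ : (κ : List Bool) → TPair k κ) (C : FCont) (s : List Bool) :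
    BO k fin N X τ C s = ΦO k fin N X τ C (BO k fin N X τ C) s :=
  (exists_BO k fin N X τ C).choose_spec s

theorem BO_bstr (X : Cont) (τ : (κ : List Bool) → TPair k κ) (C : FCont) (κ : List Bool)
    (a : B0 (par κ) × Bool) :
    BO k fin N X τ C (bstr κ a) = true ↔ ∃ i, posn (par κ) a = some i ∧ X κ i = true := by
  rw [BO_spec, ΦO, decide_eq_true_eq, hit_bstr]
  constructor
  · rintro (h | ⟨_, i, x, y, h, _⟩ | ⟨j, n, y, h, _⟩)
    · exact h
    · exact absurd h.symm (mstr_ne_bstr _ _)
    · exact absurd h.symm (fstr_ne_bstr _ _ _)
  · exact Or.inl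

theorem BO_mstr (hfin : fin) (X : Cont) (τ : (κ : List Bool) → TPair k κ) (C : FCont) (i : ℕ)
    (x : List Bool) (y : TCell k ((N i).code i x)) :
    BO k fin N X τ C (mstr ((N i).code i x) y) =
      if (N i).Accepts (BO k fin N X τ C) x then (τ ((N i).code i x)).1.1 y
      else (τ ((N i).code i x)).2.1 y := by
  rw [Bool.eq_iff_iff, BO_spec, ΦO, decide_eq_true_eq]
  constructor
  · rintro (⟨κ', a, j, h, _⟩ | ⟨_, i', x', y', h, h2⟩ | ⟨j, n, y', h, _⟩)
    · exact absurd h (mstr_ne_bstr _ _)
    · have hc := mstr_code_inj h
      obtain ⟨rfl, rfl⟩ := xcode_inj hc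
      have hy := mstr_inj h
      subst hy
      exact h2
    · exact absurd h (mstr_ne_fstr _ _ _)
  · intro h
    exact Or.inr (Or.inl ⟨hfin, i, x, y, rfl, h⟩)

theorem BO_fstr (X : Cont) (τ : (κ : List Bool) → TPair k κ) (C : FCont) (j n : ℕ)
    (y : FCell j n) : BO k fin N X τ C (fstr n y) = C j n y := by
  rw [Bool.eq_iff_iff, BO_spec, ΦO, decide_eq_true_eq]
  constructor
  · rintro (⟨κ', a, j', h, _⟩ | ⟨_, i', x', y', h, _⟩ | ⟨j', n', y', h, h2⟩)
    · exact absurd h (fstr_ne_bstr _ _ _)
    · exact absurd h.symm (mstr_ne_fstr _ _ _)
    · obtain ⟨rfl, rfl⟩ := fstr_all_inj h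
      have hy := fstr_inj h
      subst hy
      exact h2
  · intro h
    exact Or.inr (Or.inr ⟨j, n, y, rfl, h⟩)

theorem BO_else (X : Cont) (τ : (κ : List Bool) → TPair k κ) (C : FCont) {s : List Bool}
    (h1 : ∀ κ (a : B0 (par κ) × Bool), s ≠ bstr κ a)
    (h2 : fin → ∀ i x (y : TCell k ((N i).code i x)), s ≠ mstr ((N i).code i x) y)
    (h3 : ∀ j n (y : FCell j n), s ≠ fstr n y) : BO k fin N X τ C s = false := by
  rw [BO_spec, ΦO, decide_eq_false_iff_not]
  rintro (⟨κ', a, j, h, _⟩ | ⟨hf, i, x, y, h, _⟩ | ⟨j, n, y, h, _⟩)
  · exact h1 κ' a h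
  · exact h2 hf i x y h
  · exact h3 j n y h

theorem BO_tt (hfin : fin) (X : Cont) (τ : (κ : List Bool) → TPair k κ) (C : FCont) (i : ℕ)
    (x : List Bool) :
    Alt k true (fun y : TCell k ((N i).code i x) =>
      BO k fin N X τ C (mstr ((N i).code i x) y) = true) ↔
      (N i).Accepts (BO k fin N X τ C) x := by
  simp only [BO_mstr k fin N hfin X τ C i x]
  by_cases hA : (N i).Accepts (BO k fin N X τ C) x
  · simp only [hA, if_true, iff_true]
    have h1 := (τ ((N i).code i x)).1.2
    rwa [TT, decide_eq_true_eq] at h1
  · simp only [hA, if_false, iff_false]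
    have h1 := (τ ((N i).code i x)).2.2
    rwa [TT, decide_eq_false_iff_not] at h1

theorem BO_congr {X X' : Cont} {τ τ' : (κ : List Bool) → TPair k κ} {C C' : FCont} {l : ℕ}
    (hX : ∀ κ, 13 * κ.length + 20 ≤ l → X κ = X' κ) (hτ : ∀ κ, κ.length < l → τ κ = τ' κ)
    (hC : ∀ j n, n < l → C j n = C' j n) (s : List Bool) (hs : s.length ≤ l) :
    BO k fin N X τ C s = BO k fin N X' τ' C' s := by
  have key : ∀ n, ∀ s : List Bool, s.length = n → s.length ≤ l →
      BO k fin N X τ C s = BO k fin N X' τ' C' s := by
    intro n
    induction n using Nat.strong_induction_on with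
    | _ n ih =>
      intro s hs hsl
      rw [BO_spec, BO_spec, ΦO, ΦO]
      congr 1
      apply propext
      apply or_congr
      · unfold Hit
        apply exists_congr
        intro κ
        apply exists_congr
        intro a
        apply exists_congr
        intro i
        apply and_congr_right
        intro h1
        rw [hX κ (by rw [h1, bstr_length] at hsl; exact hsl)]
      · apply or_congr
        · apply and_congr_right
          intro _
          apply exists_congr
          intro i
          apply exists_congr
          intro x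
          apply exists_congr
          intro y
          apply and_congr_right
          intro h1
          have h2 := mstr_length_gt (κ := (N i).code i x) y
          rw [← h1] at h2
          have h3 := xcode_length (N i) i x
          have hacc : (N i).Accepts (BO k fin N X τ C) x ↔
              (N i).Accepts (BO k fin N X' τ' C') x := by
            apply XMachine.accepts_congr
            intro s' hs'
            exact ih s'.length (by omega) s' rfl (by omega)
          rw [hτ ((N i).code i x) (by omega)]
          simp only [hacc]
        · apply exists_congr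
          intro j
          apply exists_congr
          intro m
          apply exists_congr
          intro y
          apply and_congr_right
          intro h1
          have h2 := fstr_length_gt m y
          rw [← h1] at h2
          rw [hC j m (by omega)]
  exact key s.length s rfl hs

end Pool.Agent.Helper67.EL
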